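import Pool.Agent.Lib.SdG.Two

/-!
# Popular sums, and the direct bound for the multiplicative energy of order three

MP_c028f8_co, project SdG (owner helper98); Steps 2 and 3 of /team-store/c028f8_g32.md.
-/

set_option autoImplicit false

namespace SdG

open Finset

theorem dyadic {α : Type*} (S : Finset α) (f : α → ℕ) (l : ℕ) (h1 : ∀ s ∈ S, 1 ≤ f s)
    (h2 : ∀ s ∈ S, f s < 2 ^ l) (k : ℕ) :
    ∑ s ∈ S, (f s : ℝ) ^ k ≤
      ∑ j ∈ range l, ((2 : ℝ) ^ (j + 1)) ^ k * ((S.filter fun s => Nat.log 2 (f s) = j).card : ℝ) := by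
  have h3 : ∀ s ∈ S, Nat.log 2 (f s) ∈ range l := by
    intro s hs
    rw [mem_range]
    exact Nat.log_lt_of_lt_pow (by have := h1 s hs; omega) (h2 s hs)
  rw [← sum_fiberwise_of_maps_to h3]
  refine sum_le_sum fun j _ => ?_
  rw [mul_comm, ← nsmul_eq_mul, ← sum_const]
  refine sum_le_sum fun s hs => ?_
  rw [mem_filter] at hs
  have h4 : f s < 2 ^ (j + 1) := by
    rw [← hs.2]
    exact Nat.lt_pow_succ_log_self (by norm_num) _
  have h5 : (f s : ℝ) ≤ (2 : ℝ) ^ (j + 1) := by exact_mod_cast h4.le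
  gcongr

theorem rp_pos {A : Finset ℝ} {s : ℝ} (hs : s ∈ sums A) : 1 ≤ rp A s := by
  unfold sums at hs
  rw [mem_image] at hs
  obtain ⟨x, hx, rfl⟩ := hs
  rw [mem_product] at hx
  unfold rp
  rw [Nat.one_le_iff_ne_zero, ← Nat.pos_iff_ne_zero, card_pos]
  refine ⟨x.1, mem_filter.2 ⟨hx.1, ?_⟩⟩
  rw [add_sub_cancel_left]
  exact hx.2

theorem rp_le (A : Finset ℝ) (s : ℝ) : rp A s ≤ A.card := card_filter_le _ _

theorem rp_mono {A' A : Finset ℝ} (h : A' ⊆ A) (s : ℝ) : rp A' s ≤ rp A s := by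
  unfold rp
  refine card_le_card fun a ha => ?_
  rw [mem_filter] at ha ⊢
  exact ⟨h ha.1, h ha.2⟩

theorem sums_mono {A' A : Finset ℝ} (h : A' ⊆ A) : sums A' ⊆ sums A :=
  image_subset_image (product_subset_product h h)

/-- dyadic level set -/
noncomputable def lev (A : Finset ℝ) (j : ℕ) : Finset ℝ := (sums A).filter fun s => Nat.log 2 (rp A s) = j

theorem lev_bounds {A : Finset ℝ} {j : ℕ} {s : ℝ} (hs : s ∈ lev A j) : 2 ^ j ≤ rp A s ∧ rp A s < 2 ^ (j + 1) := by
  unfold lev at hs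
  rw [mem_filter] at hs
  have h1 := rp_pos hs.1
  rw [← hs.2]
  exact ⟨Nat.pow_log_le_self 2 (by omega), Nat.lt_pow_succ_log_self (by norm_num) _⟩

/-- the energy of a subset by degrees -/
theorem ek4_le (A A' : Finset ℝ) (h : A' ⊆ A) (l : ℕ) (hl : A.card < 2 ^ l) :
    Ek 4 A' ≤ ∑ a ∈ A', ∑ j ∈ range l,
      (8 : ℝ) ^ (j + 1) * (((lev A j).filter fun s => s - a ∈ A).card : ℝ) := by
  have h1 : Ek 4 A' ≤ ∑ s ∈ sums A, (rp A' s : ℝ) * (rp A s : ℝ) ^ 3 := by
    unfold Ek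
    refine le_trans (sum_le_sum_of_subset_of_nonneg (sums_mono h) fun _ _ _ => by positivity) ?_
    refine sum_le_sum fun s _ => ?_
    have h2 : (rp A' s : ℝ) ≤ rp A s := by exact_mod_cast rp_mono h s
    calc (rp A' s : ℝ) ^ 4 = (rp A' s : ℝ) * (rp A' s : ℝ) ^ 3 := by ring
      _ ≤ _ := by gcongr
  refine h1.trans ?_
  have h2 : ∑ s ∈ sums A, (rp A' s : ℝ) * (rp A s : ℝ) ^ 3 ≤
      ∑ s ∈ sums A, ∑ a ∈ A', if s - a ∈ A then (rp A s : ℝ) ^ 3 else 0 := by
    refine sum_le_sum fun s _ => ?_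
    rw [← sum_filter, sum_const, nsmul_eq_mul]
    have h3 : rp A' s ≤ (A'.filter fun a => s - a ∈ A).card := by
      unfold rp
      refine card_le_card fun a ha => ?_
      rw [mem_filter] at ha ⊢
      exact ⟨ha.1, h ha.2⟩
    have h4 : (rp A' s : ℝ) ≤ ((A'.filter fun a => s - a ∈ A).card : ℝ) := by exact_mod_cast h3
    gcongr
  refine h2.trans ?_
  rw [sum_comm]
  refine sum_le_sum fun a _ => ?_
  rw [← sum_filter]
  have h3 := dyadic ((sums A).filter fun s => s - a ∈ A) (rp A) l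
    (fun s hs => rp_pos (mem_filter.1 hs).1) (fun s _ => (rp_le A s).trans_lt hl) 3
  refine h3.trans (le_of_eq ?_)
  refine sum_congr rfl fun j _ => ?_
  have h4 : ((sums A).filter fun s => s - a ∈ A).filter (fun s => Nat.log 2 (rp A s) = j) =
      (lev A j).filter fun s => s - a ∈ A := by
    unfold lev
    rw [filter_comm]
  rw [h4]
  congr 1
  rw [← pow_mul, show (8 : ℝ) = 2 ^ 3 by norm_num, ← pow_mul, mul_comm]

theorem pop (A : Finset ℝ) (Q : ℝ) (hQ : 1 ≤ Q) (l : ℕ) (hl : A.card < 2 ^ l) (hE : 0 < Ek 4 A)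
    (hreg : ∀ A' ⊆ A, A.card ≤ 2 * A'.card → Ek 4 A ≤ Q * Ek 4 A') :
    ∃ (R : ℕ) (P A1 : Finset ℝ), 1 ≤ R ∧ R ≤ A.card ∧ A1 ⊆ A ∧ A.card ≤ 2 * l * A1.card ∧
      (∀ a ∈ A1, Ek 4 A ≤ 16 * Q * A.card * l * (R : ℝ) ^ 3 * ((P.filter fun s => s - a ∈ A).card : ℝ)) ∧
      (P.card : ℝ) * (R : ℝ) ^ 4 ≤ Ek 4 A ∧ Ek 4 A ≤ 64 * Q * (l : ℝ) ^ 2 * P.card * (R : ℝ) ^ 4 := by
  have hQ0 : 0 < Q := by linarith
  have hA0 : 0 < A.card := by
    rw [card_pos, nonempty_iff_ne_empty]
    rintro rfl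
    simp [Ek, sums] at hE
  have hl0 : 0 < l := by
    rcases Nat.eq_zero_or_pos l with rfl | h
    · simp only [pow_zero] at hl
      omega
    · exact h
  have hmR : (0 : ℝ) < A.card := by exact_mod_cast hA0
  have hlR : (0 : ℝ) < l := by exact_mod_cast hl0
  set E := Ek 4 A with hEdef
  let rich : ℕ → ℝ → Prop := fun j a =>
    E ≤ (8 : ℝ) ^ (j + 1) * (((lev A j).filter fun s => s - a ∈ A).card : ℝ) * (2 * Q * A.card * l)
  -- poor elements
  have hpoor : 2 * (A.filter fun a => ∀ j ∈ range l, ¬ rich j a).card < A.card := by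
    by_contra hlt
    push Not at hlt
    set A' := A.filter fun a => ∀ j ∈ range l, ¬ rich j a with hA'
    have h1 := hreg A' (filter_subset _ _) hlt
    have h2 := ek4_le A A' (filter_subset _ _) l hl
    have h3 : ∑ a ∈ A', ∑ j ∈ range l,
      (8 : ℝ) ^ (j + 1) * (((lev A j).filter fun s => s - a ∈ A).card : ℝ) ≤
        ∑ a ∈ A', ∑ j ∈ range l, E / (2 * Q * A.card * l) := by
      refine sum_le_sum fun a ha => sum_le_sum fun j hj => ?_
      rw [hA', mem_filter] at ha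
      have h4 := ha.2 j hj
      have h5 : ¬ (E ≤ (8 : ℝ) ^ (j + 1) * (((lev A j).filter fun s => s - a ∈ A).card : ℝ) *
        (2 * Q * A.card * l)) := h4
      push Not at h5
      rw [le_div_iff₀ (by positivity)]
      exact h5.le
    rw [sum_const, sum_const, card_range, nsmul_eq_mul, nsmul_eq_mul] at h3
    have h4 : (A'.card : ℝ) ≤ A.card := by exact_mod_cast card_filter_le _ _
    have h5 : (A'.card : ℝ) * (l * (E / (2 * Q * A.card * l))) ≤ E / (2 * Q) := by
      calc (A'.card : ℝ) * (l * (E / (2 * Q * A.card * l))) ≤ A.card * (l * (E / (2 * Q * A.card * l))) := by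
            gcongr
        _ = E / (2 * Q) := by field_simp
    have h6 : Q * Ek 4 A' ≤ E / 2 := by
      calc Q * Ek 4 A' ≤ Q * (E / (2 * Q)) := by
            refine mul_le_mul_of_nonneg_left ?_ hQ0.le
            linarith
        _ = E / 2 := by field_simp
    linarith
  -- a popular level
  obtain ⟨j, hj, hjc⟩ : ∃ j ∈ range l, A.card ≤ 2 * l * (A.filter fun a => rich j a).card := by
    by_contra hno
    push Not at hno
    have h1 : A ⊆ (A.filter fun a => ∀ j ∈ range l, ¬ rich j a) ∪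
        (range l).biUnion fun j => A.filter fun a => rich j a := by
      intro a ha
      rw [mem_union, mem_filter, mem_biUnion]
      by_cases h : ∀ j ∈ range l, ¬ rich j a
      · exact Or.inl ⟨ha, h⟩
      · push Not at h
        obtain ⟨j, hj, hj2⟩ := h
        exact Or.inr ⟨j, hj, mem_filter.2 ⟨ha, hj2⟩⟩
    have h2 := (card_le_card h1).trans ((card_union_le _ _).trans (Nat.add_le_add_left card_biUnion_le _))
    have h3 : ∑ j ∈ range l, (2 * l * (A.filter fun a => rich j a).card) ≤ ∑ j ∈ range l, A.card :=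
      sum_le_sum fun j hj => (hno j hj).le
    rw [sum_const, card_range, smul_eq_mul, ← mul_sum] at h3
    have h4 : 2 * ∑ j ∈ range l, (A.filter fun a => rich j a).card ≤ A.card := by
      have : l * (2 * ∑ j ∈ range l, (A.filter fun a => rich j a).card) ≤ l * A.card := by
        calc l * (2 * ∑ j ∈ range l, (A.filter fun a => rich j a).card)
            = 2 * l * ∑ j ∈ range l, (A.filter fun a => rich j a).card := by ring
          _ ≤ _ := h3
      exact Nat.le_of_mul_le_mul_left this hl0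
    omega
  refine ⟨2 ^ j, lev A j, A.filter fun a => rich j a, Nat.one_le_two_pow, ?_, filter_subset _ _, hjc, ?_, ?_, ?_⟩
  · -- R ≤ m
    obtain ⟨a, ha⟩ : (A.filter fun a => rich j a).Nonempty := by
      rw [← card_pos, Nat.pos_iff_ne_zero]
      intro h0
      rw [h0] at hjc
      omega
    rw [mem_filter] at ha
    have h1 : ((lev A j).filter fun s => s - a ∈ A).Nonempty := by
      rw [nonempty_iff_ne_empty]
      intro h0
      have h2 : E ≤ (8 : ℝ) ^ (j + 1) * (((lev A j).filter fun s => s - a ∈ A).card : ℝ) *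
        (2 * Q * A.card * l) := ha.2
      rw [h0] at h2
      simp only [card_empty, Nat.cast_zero, mul_zero, zero_mul] at h2
      linarith
    obtain ⟨s, hs⟩ := h1
    exact (lev_bounds (mem_filter.1 hs).1).1.trans (rp_le A s)
  · intro a ha
    rw [mem_filter] at ha
    have h2 : E ≤ (8 : ℝ) ^ (j + 1) * (((lev A j).filter fun s => s - a ∈ A).card : ℝ) *
        (2 * Q * A.card * l) := ha.2
    refine h2.trans (le_of_eq ?_)
    push_cast
    rw [← pow_mul, show (8 : ℝ) = 2 ^ 3 by norm_num, ← pow_mul]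
    ring
  · -- N R^4 ≤ E
    rw [hEdef]
    unfold Ek
    calc ((lev A j).card : ℝ) * (((2 ^ j : ℕ) : ℝ)) ^ 4 = ∑ s ∈ lev A j, (((2 ^ j : ℕ) : ℝ)) ^ 4 := by
          rw [sum_const, nsmul_eq_mul]
      _ ≤ ∑ s ∈ lev A j, (rp A s : ℝ) ^ 4 := by
          refine sum_le_sum fun s hs => ?_
          have : ((2 ^ j : ℕ) : ℝ) ≤ rp A s := by exact_mod_cast (lev_bounds hs).1
          gcongr
      _ ≤ _ := sum_le_sum_of_subset_of_nonneg (filter_subset _ _) fun _ _ _ => by positivity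
  · -- E ≤ 64 Q l^2 N R^4
    set A1 := A.filter fun a => rich j a with hA1
    set D : ℝ := E / ((8 : ℝ) ^ (j + 1) * (2 * Q * A.card * l)) with hD
    have hdeg : ∀ a ∈ A1, D ≤ (((lev A j).filter fun s => s - a ∈ A).card : ℝ) := by
      intro a ha
      rw [hA1, mem_filter] at ha
      have h2 : E ≤ (8 : ℝ) ^ (j + 1) * (((lev A j).filter fun s => s - a ∈ A).card : ℝ) *
        (2 * Q * A.card * l) := ha.2
      rw [hD, div_le_iff₀ (by positivity)]
      linarith
    have h1 := sum_deg A (lev A j) A1 D hdeg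
    have h2 : ∑ s ∈ lev A j, ((A1.filter fun a => s - a ∈ A).card : ℝ) ≤ (lev A j).card * (2 : ℝ) ^ (j + 1) := by
      rw [← nsmul_eq_mul, ← sum_const]
      refine sum_le_sum fun s hs => ?_
      have h3 : (A1.filter fun a => s - a ∈ A).card ≤ rp A s := by
        unfold rp
        refine card_le_card fun a ha => ?_
        rw [mem_filter] at ha ⊢
        exact ⟨(mem_filter.1 ha.1).1, ha.2⟩
      have h4 := h3.trans (lev_bounds hs).2.le
      exact_mod_cast h4
    have h3 : (A.card : ℝ) ≤ 2 * l * A1.card := by exact_mod_cast hjc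
    have hD0 : 0 < D := by
      rw [hD]
      positivity
    have h4 : (A.card : ℝ) * D ≤ 2 * l * ((lev A j).card * (2 : ℝ) ^ (j + 1)) := by
      calc (A.card : ℝ) * D ≤ 2 * l * A1.card * D := by gcongr
        _ = 2 * l * (A1.card * D) := by ring
        _ ≤ _ := by
          refine mul_le_mul_of_nonneg_left ?_ (by positivity)
          exact h1.trans h2
    have h5 : E = (A.card : ℝ) * D * ((8 : ℝ) ^ (j + 1) * (2 * Q * l)) := by
      rw [hD]
      field_simp
    rw [h5]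
    calc (A.card : ℝ) * D * ((8 : ℝ) ^ (j + 1) * (2 * Q * l))
        ≤ 2 * l * ((lev A j).card * (2 : ℝ) ^ (j + 1)) * ((8 : ℝ) ^ (j + 1) * (2 * Q * l)) := by gcongr
      _ = 64 * Q * (l : ℝ) ^ 2 * (lev A j).card * (((2 ^ j : ℕ) : ℝ)) ^ 4 := by
        push_cast
        rw [← pow_mul, show (8 : ℝ) = 2 ^ 3 by norm_num, ← pow_mul]
        ring

theorem rq_pos {A : Finset ℝ} (hpos : ∀ a ∈ A, 0 < a) {p : ℝ} (hp : p ∈ prods A) : 1 ≤ rq A p := by
  unfold prods at hp
  rw [mem_image] at hp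
  obtain ⟨x, hx, rfl⟩ := hp
  rw [mem_product] at hx
  unfold rq
  rw [Nat.one_le_iff_ne_zero, ← Nat.pos_iff_ne_zero, card_pos]
  refine ⟨x.1, mem_filter.2 ⟨hx.1, ?_⟩⟩
  rw [mul_div_cancel_left₀ _ (hpos _ hx.1).ne']
  exact hx.2

theorem rq_le (A : Finset ℝ) (s : ℝ) : rq A s ≤ A.card := card_filter_le _ _

/-- Step 3 -/
theorem f3_le (A A1 P : Finset ℝ) (hA1 : A1 ⊆ A) (hpos : ∀ a ∈ A, 0 < a) (D : ℝ) (hD : 0 < D)
    (hdeg : ∀ a ∈ A1, D ≤ ((P.filter fun s => s - a ∈ A).card : ℝ)) (l : ℕ) (hl : A.card < 2 ^ l) :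
    Fk 3 A1 * D ^ 3 ≤ 4096 * l * (A.card : ℝ) ^ 4 * (P.card : ℝ) ^ 2 := by
  have hpos1 : ∀ a ∈ A1, 0 < a := fun a ha => hpos a (hA1 ha)
  have h1 := dyadic (prods A1) (rq A1) l (fun s hs => rq_pos hpos1 hs)
    (fun s _ => ((rq_le A1 s).trans (card_le_card hA1)).trans_lt hl) 3
  have h2 : Fk 3 A1 * D ^ 3 ≤ (∑ j ∈ range l, ((2 : ℝ) ^ (j + 1)) ^ 3 *
      (((prods A1).filter fun s => Nat.log 2 (rq A1 s) = j).card : ℝ)) * D ^ 3 := by
    unfold Fk
    gcongr
  refine h2.trans ?_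
  rw [sum_mul]
  have h3 : ∀ j ∈ range l, ((2 : ℝ) ^ (j + 1)) ^ 3 *
      (((prods A1).filter fun s => Nat.log 2 (rq A1 s) = j).card : ℝ) * D ^ 3 ≤
      4096 * (A.card : ℝ) ^ 4 * (P.card : ℝ) ^ 2 := by
    intro j _
    have h4 := direct A A1 P hA1 hpos D hD hdeg (2 ^ j) Nat.one_le_two_pow
      ((prods A1).filter fun s => Nat.log 2 (rq A1 s) = j) (by
        intro p hp
        rw [mem_filter] at hp
        have h5 := rq_pos hpos1 hp.1
        have h6 : 2 ^ j ≤ rq A1 p := by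
          rw [← hp.2]
          exact Nat.pow_log_le_self 2 (by omega)
        refine h6.trans ?_
        unfold rq
        refine card_le_card fun a ha => ?_
        rw [mem_filter] at ha ⊢
        exact ⟨ha.1, hA1 ha.2⟩)
    calc ((2 : ℝ) ^ (j + 1)) ^ 3 * (((prods A1).filter fun s => Nat.log 2 (rq A1 s) = j).card : ℝ) * D ^ 3
        = 8 * ((((prods A1).filter fun s => Nat.log 2 (rq A1 s) = j).card : ℝ) * (((2 ^ j : ℕ) : ℝ) * D) ^ 3) := by
          push_cast
          ring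
      _ ≤ 8 * (512 * (A.card : ℝ) ^ 4 * (P.card : ℝ) ^ 2) := by gcongr
      _ = _ := by ring
  refine (sum_le_sum h3).trans (le_of_eq ?_)
  rw [sum_const, card_range, nsmul_eq_mul]
  ring

end SdG
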