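import Pool.Agent.Lib.SdG.Sel
import Pool.Agent.Lib.SdG.Pop

/-!
# Sets without large Sidon-type subsets have large energies

MP_c028f8_co, project SdG (owner helper98); the consequences of Lemma 1 of /team-store/c028f8_g32.md.
-/

set_option autoImplicit false

namespace SdG

open Finset

/-- all subsets of `A` that are additive `3`-Sidon or multiplicative `2`-Sidon have at most `K` elements -/
def HK (A : Finset ℝ) (K : ℕ) : Prop := ∀ B ⊆ A, (AddSid 3 B ∨ MulSid 2 B) → B.card ≤ K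

theorem HK.mono {A A' : Finset ℝ} {K : ℕ} (h : HK A K) (hA : A' ⊆ A) : HK A' K :=
  fun B hB => h B (hB.trans hA)

/-- choice of the number of colours -/
theorem colours (m K : ℕ) (hK : 1 ≤ K) (h8 : 8 * K ≤ m) :
    ∃ k : ℕ, 2 ≤ k ∧ 2 * k * K < m ∧ m ≤ 4 * K * k := by
  refine ⟨(m - 1) / (2 * K), ?_, ?_, ?_⟩
  · rw [Nat.le_div_iff_mul_le (by omega)]
    omega
  · have h1 := Nat.div_mul_le_self (m - 1) (2 * K)
    have h2 : 2 * ((m - 1) / (2 * K)) * K = (m - 1) / (2 * K) * (2 * K) := by ring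
    rw [h2]
    omega
  · have h1 := Nat.div_add_mod (m - 1) (2 * K)
    have h2 := Nat.mod_lt (m - 1) (show 2 * K > 0 by omega)
    have h3 : 4 * K * ((m - 1) / (2 * K)) = 2 * (2 * K * ((m - 1) / (2 * K))) := by ring
    rw [h3]
    omega

theorem e4_ge (A A' : Finset ℝ) (K : ℕ) (hK : 1 ≤ K) (h : HK A K) (hA' : A' ⊆ A)
    (h8 : 8 * K ≤ A'.card) : (A'.card : ℝ) ^ 8 ≤ 2 ^ 17 * (K : ℝ) ^ 7 * Ek 4 A' := by
  obtain ⟨k, hk2, hk3, hk4⟩ := colours A'.card K hK h8
  have h1 : ¬ (8 * Ek 4 A' ≤ A'.card * (k : ℝ) ^ 7) := by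
    intro hE
    obtain ⟨B, hBA, hB, hBc⟩ := sel 3 k (by norm_num) hk2 A' hE
    have h2 := h B (hBA.trans hA') (Or.inl hB)
    have h3 : 2 * k * B.card ≤ 2 * k * K := Nat.mul_le_mul_left _ h2
    have h5 : A'.card ≤ 2 * k * B.card := by exact_mod_cast hBc
    omega
  push Not at h1
  have h4 : (A'.card : ℝ) ≤ 4 * K * k := by exact_mod_cast hk4
  calc (A'.card : ℝ) ^ 8 = A'.card * (A'.card : ℝ) ^ 7 := by ring
    _ ≤ A'.card * (4 * (K : ℝ) * k) ^ 7 := by gcongr
    _ = (4 * (K : ℝ)) ^ 7 * (A'.card * (k : ℝ) ^ 7) := by ring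
    _ ≤ (4 * (K : ℝ)) ^ 7 * (8 * Ek 4 A') := by gcongr
    _ = _ := by ring

theorem log_inj_on {A : Finset ℝ} (hpos : ∀ a ∈ A, 0 < a) : Set.InjOn Real.log (A : Set ℝ) := by
  intro a ha b hb h
  exact Real.log_injOn_pos (hpos a ha) (hpos b hb) h

theorem prods_pos {A : Finset ℝ} (hpos : ∀ a ∈ A, 0 < a) {p : ℝ} (hp : p ∈ prods A) : 0 < p := by
  unfold prods at hp
  rw [mem_image] at hp
  obtain ⟨x, hx, rfl⟩ := hp
  rw [mem_product] at hx
  exact mul_pos (hpos _ hx.1) (hpos _ hx.2)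

theorem mem_log {A : Finset ℝ} (hpos : ∀ a ∈ A, 0 < a) {x : ℝ} (hx : 0 < x) :
    Real.log x ∈ A.image Real.log ↔ x ∈ A := by
  constructor
  · intro h
    rw [mem_image] at h
    obtain ⟨a, ha, h⟩ := h
    rw [← Real.log_injOn_pos (hpos a ha) hx h]
    exact ha
  · exact mem_image_of_mem _

theorem rp_log {A : Finset ℝ} (hpos : ∀ a ∈ A, 0 < a) {p : ℝ} (hp : 0 < p) :
    rp (A.image Real.log) (Real.log p) = rq A p := by
  unfold rp rq
  have h1 : ((A.image Real.log).filter fun x => Real.log p - x ∈ A.image Real.log) =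
      (A.filter fun a => p / a ∈ A).image Real.log := by
    ext x
    simp only [mem_filter]
    constructor
    · rintro ⟨h1, h2⟩
      rw [mem_image] at h1
      obtain ⟨a, ha, rfl⟩ := h1
      have ha0 := hpos a ha
      rw [← Real.log_div hp.ne' ha0.ne', mem_log hpos (by positivity)] at h2
      exact mem_image_of_mem _ (mem_filter.2 ⟨ha, h2⟩)
    · intro h1
      rw [mem_image] at h1
      obtain ⟨a, ha, rfl⟩ := h1
      rw [mem_filter] at ha
      have ha0 := hpos a ha.1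
      refine ⟨mem_image_of_mem _ ha.1, ?_⟩
      rw [← Real.log_div hp.ne' ha0.ne', mem_log hpos (by positivity)]
      exact ha.2
  rw [h1, card_image_of_injOn]
  exact (log_inj_on hpos).mono (coe_subset.2 (filter_subset _ _))

theorem sums_log {A : Finset ℝ} (hpos : ∀ a ∈ A, 0 < a) :
    sums (A.image Real.log) = (prods A).image Real.log := by
  ext x
  unfold sums prods
  simp only [mem_image, mem_product, Prod.exists]
  constructor
  · rintro ⟨_, _, ⟨⟨a, ha, rfl⟩, b, hb, rfl⟩, rfl⟩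
    exact ⟨a * b, ⟨a, b, ⟨ha, hb⟩, rfl⟩, Real.log_mul (hpos a ha).ne' (hpos b hb).ne'⟩
  · rintro ⟨_, ⟨a, b, ⟨ha, hb⟩, rfl⟩, rfl⟩
    exact ⟨Real.log a, Real.log b, ⟨⟨a, ha, rfl⟩, b, hb, rfl⟩,
      (Real.log_mul (hpos a ha).ne' (hpos b hb).ne').symm⟩

theorem ek_log {A : Finset ℝ} (hpos : ∀ a ∈ A, 0 < a) (k : ℕ) : Ek k (A.image Real.log) = Fk k A := by
  unfold Ek Fk
  rw [sums_log hpos, sum_image]
  · refine sum_congr rfl fun p hp => ?_
    rw [rp_log hpos (prods_pos hpos hp)]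
  · intro a ha b hb h
    exact Real.log_injOn_pos (prods_pos hpos ha) (prods_pos hpos hb) h

theorem f3_ge (A A' : Finset ℝ) (hpos : ∀ a ∈ A, 0 < a) (K : ℕ) (hK : 1 ≤ K) (h : HK A K) (hA' : A' ⊆ A)
    (h8 : 8 * K ≤ A'.card) : (A'.card : ℝ) ^ 6 ≤ 2 ^ 13 * (K : ℝ) ^ 5 * Fk 3 A' := by
  obtain ⟨k, hk2, hk3, hk4⟩ := colours A'.card K hK h8
  have hpos' : ∀ a ∈ A', 0 < a := fun a ha => hpos a (hA' ha)
  have hcard : (A'.image Real.log).card = A'.card := card_image_of_injOn (log_inj_on hpos')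
  have h1 : ¬ (8 * Fk 3 A' ≤ A'.card * (k : ℝ) ^ 5) := by
    intro hE
    rw [← ek_log hpos', ← hcard] at hE
    obtain ⟨B', hBA, hB, hBc⟩ := sel 2 k le_rfl hk2 (A'.image Real.log) hE
    set B := A'.filter fun a => Real.log a ∈ B' with hBdef
    have hBpos : ∀ a ∈ B, 0 < a := fun a ha => hpos' a (mem_filter.1 ha).1
    have hBimg : B.image Real.log = B' := by
      ext x
      rw [mem_image]
      constructor
      · rintro ⟨a, ha, rfl⟩
        exact (mem_filter.1 ha).2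
      · intro hx
        have h2 := hBA hx
        rw [mem_image] at h2
        obtain ⟨a, ha, rfl⟩ := h2
        exact ⟨a, mem_filter.2 ⟨ha, hx⟩, rfl⟩
    have hBcard : B.card = B'.card := by
      rw [← hBimg, card_image_of_injOn (log_inj_on hBpos)]
    have hBS : MulSid 2 B := by
      intro p
      rcases (((B ×ˢ B).filter fun x => x.1 ≤ x.2 ∧ x.1 * x.2 = p)).eq_empty_or_nonempty with h0 | ⟨z, hz⟩
      · rw [h0]
        simp
      rw [mem_filter, mem_product] at hz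
      refine le_trans ?_ (hB (Real.log p))
      refine card_le_card_of_injOn (fun x => (Real.log x.1, Real.log x.2)) ?_ ?_
      · intro x hx
        rw [mem_coe, mem_filter, mem_product] at hx
        rw [mem_coe, mem_filter, mem_product]
        have h1 := hBpos _ hx.1.1
        have h2 := hBpos _ hx.1.2
        refine ⟨⟨(mem_filter.1 hx.1.1).2, (mem_filter.1 hx.1.2).2⟩, Real.log_le_log h1 hx.2.1, ?_⟩
        show Real.log x.1 + Real.log x.2 = Real.log p
        rw [← Real.log_mul h1.ne' h2.ne', hx.2.2]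
      · intro x hx y hy h
        rw [mem_coe, mem_filter, mem_product] at hx hy
        have hxy := Prod.mk.inj h
        exact Prod.ext (Real.log_injOn_pos (hBpos _ hx.1.1) (hBpos _ hy.1.1) hxy.1)
          (Real.log_injOn_pos (hBpos _ hx.1.2) (hBpos _ hy.1.2) hxy.2)
    have h2 := h B ((filter_subset _ _).trans hA') (Or.inr hBS)
    rw [hcard, ← hBcard] at hBc
    have h3 : 2 * k * B.card ≤ 2 * k * K := Nat.mul_le_mul_left _ h2
    have h5 : A'.card ≤ 2 * k * B.card := by exact_mod_cast hBc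
    omega
  push Not at h1
  have h4 : (A'.card : ℝ) ≤ 4 * K * k := by exact_mod_cast hk4
  calc (A'.card : ℝ) ^ 6 = A'.card * (A'.card : ℝ) ^ 5 := by ring
    _ ≤ A'.card * (4 * (K : ℝ) * k) ^ 5 := by gcongr
    _ = (4 * (K : ℝ)) ^ 5 * (A'.card * (k : ℝ) ^ 5) := by ring
    _ ≤ (4 * (K : ℝ)) ^ 5 * (8 * Fk 3 A') := by gcongr
    _ = _ := by ring

end SdG
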