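import Pool.Agent.Lib.SdG.Mul
import Pool.Agent.Lib.SdG.Cons

/-!
# The contradiction, with logarithms

MP_c028f8_co, project SdG (owner helper98); Steps 2 to 8 of /team-store/c028f8_g32.md.
-/

set_option autoImplicit false

namespace SdG

open Finset

theorem core (A : Finset ℝ) (hpos : ∀ a ∈ A, 0 < a) (K : ℕ) (hK : 1 ≤ K) (hHK : HK A K)
    (Q : ℝ) (hQ : 1 ≤ Q) (l : ℕ) (hl : A.card < 2 ^ l)
    (hreg : ∀ A' ⊆ A, A.card ≤ 2 * A'.card → Ek 4 A ≤ Q * Ek 4 A')
    (v : ℝ) (hv1 : 36 * Real.log 2 ≤ v) (hv2 : Real.log Q ≤ v) (hv3 : Real.log l ≤ v)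
    (hv4 : 1000000 * v ≤ Real.log A.card)
    (hk : Real.log K ≤ (1 / 2 + 1 / 740) * Real.log A.card) : False := by
  set M := Real.log A.card with hM
  set k := Real.log K with hkdef
  have hlog2 : 0 < Real.log 2 := Real.log_pos (by norm_num)
  have hv0 : 0 < v := by linarith
  have hM0 : 0 < M := by linarith
  have hm0 : (0 : ℝ) < A.card := by
    rcases (Nat.cast_nonneg (α := ℝ) A.card).eq_or_lt with h | h
    · rw [hM, ← h, Real.log_zero] at hM0
      exact absurd hM0 (lt_irrefl _)
    · exact h
  have hmn : 0 < A.card := by exact_mod_cast hm0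
  have hK0 : (0 : ℝ) < K := by exact_mod_cast (show 0 < K by omega)
  have hk0 : 0 ≤ k := Real.log_nonneg (by exact_mod_cast hK)
  have hQ0 : 0 < Q := by linarith
  have hl0 : 0 < l := by
    rcases Nat.eq_zero_or_pos l with rfl | h
    · simp only [pow_zero] at hl
      omega
    · exact h
  have hlR : (0 : ℝ) < l := by exact_mod_cast hl0
  have hlog8 : Real.log 8 = 3 * Real.log 2 := by
    rw [show (8 : ℝ) = 2 ^ 3 by norm_num, Real.log_pow]
    push_cast
    ring
  have hlog16 : Real.log 16 = 4 * Real.log 2 := by
    rw [show (16 : ℝ) = 2 ^ 4 by norm_num, Real.log_pow]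
    push_cast
    ring
  have hlog64 : Real.log 64 = 6 * Real.log 2 := by
    rw [show (64 : ℝ) = 2 ^ 6 by norm_num, Real.log_pow]
    push_cast
    ring
  have hlog4096 : Real.log 4096 = 12 * Real.log 2 := by
    rw [show (4096 : ℝ) = 2 ^ 12 by norm_num, Real.log_pow]
    push_cast
    ring
  -- a criterion for large sets
  have hbig : ∀ A' : Finset ℝ, 0 < A'.card → Real.log 8 + k ≤ Real.log A'.card → 8 * K ≤ A'.card := by
    intro A' h0 h
    rw [hkdef, ← Real.log_mul (by norm_num) hK0.ne'] at h
    have h0R : (0 : ℝ) < A'.card := by exact_mod_cast h0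
    have := (Real.log_le_log_iff (by positivity) h0R).1 h
    exact_mod_cast this
  -- lower bound for the energy
  have h8K : 8 * K ≤ A.card := hbig A hmn (by rw [hlog8]; linarith)
  have hE := e4_ge A A K hK hHK (Subset.refl _) h8K
  have hE0 : 0 < Ek 4 A := by
    by_contra hlt
    push Not at hlt
    have h1 : 2 ^ 17 * (K : ℝ) ^ 7 * Ek 4 A ≤ 0 := mul_nonpos_of_nonneg_of_nonpos (by positivity) hlt
    have h2 : 0 < (A.card : ℝ) ^ 8 := by positivity
    linarith
  set e := Real.log (Ek 4 A) with hedef
  have g1 : 8 * M ≤ 17 * Real.log 2 + 7 * k + e := by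
    have := Real.log_le_log (by positivity) hE
    rw [Real.log_pow, Real.log_mul (by positivity) (by positivity),
      Real.log_mul (by positivity) (by positivity), Real.log_pow, Real.log_pow] at this
    push_cast at this
    exact this
  -- popular sums
  obtain ⟨R, P, A1, hR1, hRm, hA1, hA1c, hdeg0, hNR, hNR2⟩ := pop A Q hQ l hl hE0 hreg
  have hR0 : (0 : ℝ) < R := by exact_mod_cast (show 0 < R by omega)
  have hA10 : 0 < A1.card := by
    rcases Nat.eq_zero_or_pos A1.card with h | h
    · rw [h] at hA1c
      omega
    · exact h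
  have hA1R : (0 : ℝ) < A1.card := by exact_mod_cast hA10
  have hP0 : (0 : ℝ) < P.card := by
    rcases (Nat.cast_nonneg (α := ℝ) P.card).eq_or_lt with h | h
    · rw [← h] at hNR2
      simp only [mul_zero, zero_mul] at hNR2
      linarith
    · exact h
  set r := Real.log R with hrdef
  set n := Real.log P.card with hndef
  set a1 := Real.log A1.card with ha1def
  have g2 : M ≤ Real.log 2 + Real.log l + a1 := by
    have h1 : (A.card : ℝ) ≤ 2 * l * A1.card := by exact_mod_cast hA1c
    have := Real.log_le_log hm0 h1
    rw [Real.log_mul (by positivity) (by positivity), Real.log_mul (by positivity) (by positivity)] at this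
    exact this
  set D : ℝ := Ek 4 A / (16 * Q * A.card * l * (R : ℝ) ^ 3) with hDdef
  have hD0 : 0 < D := by
    rw [hDdef]
    positivity
  have hdeg : ∀ a ∈ A1, D ≤ ((P.filter fun s => s - a ∈ A).card : ℝ) := by
    intro a ha
    rw [hDdef, div_le_iff₀ (by positivity)]
    linarith [hdeg0 a ha]
  set d := Real.log D with hddef
  have g3 : d = e - (Real.log 16 + Real.log Q + M + Real.log l + 3 * r) := by
    rw [hddef, hDdef, Real.log_div (by positivity) (by positivity),
      Real.log_mul (by positivity) (by positivity), Real.log_mul (by positivity) (by positivity),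
      Real.log_mul (by positivity) (by positivity), Real.log_mul (by positivity) (by positivity), Real.log_pow]
    push_cast
    ring
  have g4 : n + 4 * r ≤ e := by
    have := Real.log_le_log (by positivity) hNR
    rw [Real.log_mul (by positivity) (by positivity), Real.log_pow] at this
    push_cast at this
    exact this
  have g5 : e ≤ Real.log 64 + Real.log Q + 2 * Real.log l + n + 4 * r := by
    have := Real.log_le_log hE0 hNR2
    rw [Real.log_mul (by positivity) (by positivity), Real.log_mul (by positivity) (by positivity),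
      Real.log_mul (by positivity) (by positivity), Real.log_mul (by positivity) (by positivity),
      Real.log_pow, Real.log_pow] at this
    push_cast at this
    exact this
  have g6 : 0 ≤ r := Real.log_nonneg (by exact_mod_cast hR1)
  have g6' : r ≤ M := Real.log_le_log hR0 (by exact_mod_cast hRm)
  -- the multiplicative energy of order three
  have h8K1 : 8 * K ≤ A1.card := hbig A1 hA10 (by rw [hlog8]; linarith)
  have hF := f3_ge A A1 hpos K hK hHK hA1 h8K1
  have hF0 : 0 < Fk 3 A1 := by
    by_contra hlt
    push Not at hlt
    have h1 : 2 ^ 13 * (K : ℝ) ^ 5 * Fk 3 A1 ≤ 0 := mul_nonpos_of_nonneg_of_nonpos (by positivity) hlt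
    have h2 : 0 < (A1.card : ℝ) ^ 6 := by positivity
    linarith
  set f3 := Real.log (Fk 3 A1) with hf3def
  have g7 : f3 + 3 * d ≤ Real.log 4096 + Real.log l + 4 * M + 2 * n := by
    have := Real.log_le_log (by positivity) (f3_le A A1 P hA1 hpos D hD0 hdeg l hl)
    rw [Real.log_mul (by positivity) (by positivity), Real.log_mul (by positivity) (by positivity),
      Real.log_mul (by positivity) (by positivity), Real.log_mul (by positivity) (by positivity),
      Real.log_pow, Real.log_pow, Real.log_pow] at this
    push_cast at this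
    exact this
  have g8 : 6 * a1 ≤ 13 * Real.log 2 + 5 * k + f3 := by
    have := Real.log_le_log (by positivity) hF
    rw [Real.log_pow, Real.log_mul (by positivity) (by positivity),
      Real.log_mul (by positivity) (by positivity), Real.log_pow, Real.log_pow] at this
    push_cast at this
    exact this
  -- R is large
  have hlogs : Real.log 8 + Real.log 16 + Real.log 64 + Real.log 4096 ≤ v := by
    rw [hlog8, hlog16, hlog64, hlog4096]
    linarith
  have hQlog : 0 ≤ Real.log Q := Real.log_nonneg hQ
  have hllog : 0 ≤ Real.log l := Real.log_nonneg (by exact_mod_cast hl0)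
  -- the multiplicative energy of order two
  set x : ℝ := 3 * M + 3 * n - 4 * d + v with hxdef
  set X : ℝ := Real.exp x with hXdef
  have hX0 : 0 < X := Real.exp_pos x
  have hlogX : Real.log X = x := Real.log_exp x
  have hX1 : 2 ^ 15 * (A.card : ℝ) ^ 6 * (P.card : ℝ) ^ 6 ≤ X ^ 2 * D ^ 8 := by
    rw [← Real.log_le_log_iff (by positivity) (by positivity), Real.log_mul (by positivity) (by positivity),
      Real.log_mul (by positivity) (by positivity), Real.log_mul (by positivity) (by positivity),
      Real.log_pow, Real.log_pow, Real.log_pow, Real.log_pow, Real.log_pow, hlogX]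
    push_cast
    rw [← hM, ← hndef, ← hddef, hxdef]
    linarith
  have hX2 : 2 ^ 36 * (A.card : ℝ) ^ 8 * (P.card : ℝ) ^ 16 ≤ X ^ 3 * D ^ 18 := by
    rw [← Real.log_le_log_iff (by positivity) (by positivity), Real.log_mul (by positivity) (by positivity),
      Real.log_mul (by positivity) (by positivity), Real.log_mul (by positivity) (by positivity),
      Real.log_pow, Real.log_pow, Real.log_pow, Real.log_pow, Real.log_pow, hlogX]
    push_cast
    rw [← hM, ← hndef, ← hddef, hxdef]
    rw [hlog16] at g3
    rw [hlog64] at g5
    rw [hlog4096] at g7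
    linarith
  have hpos1 : ∀ a ∈ A1, 0 < a := fun a ha => hpos a (hA1 ha)
  have hF2 := (fk2_le_f2 A1 hpos1).trans (f2_le A A1 P hA1 hpos D hD0 hdeg l hl X hX0 hX1 hX2)
  -- popular products
  set t0 : ℝ := Fk 3 A1 / (8 * l * X) with ht0def
  have ht00 : 0 < t0 := by
    rw [ht0def]
    positivity
  set t := Real.log t0 with htdef
  have g10 : t = f3 - (Real.log 8 + Real.log l + x) := by
    rw [htdef, ht0def, Real.log_div (by positivity) (by positivity),
      Real.log_mul (by positivity) (by positivity), Real.log_mul (by positivity) (by positivity), hlogX]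
  have hA1m : (A1.card : ℝ) ≤ A.card := by exact_mod_cast card_le_card hA1
  have h6 := popular_products A1 A.card t0 hA1m ht00.le (by
    calc 2 * t0 * Fk 2 A1 ≤ 2 * t0 * (4 * l * X) := by gcongr
      _ = Fk 3 A1 := by
        rw [ht0def]
        field_simp
        ring)
  set L' := (prods A1).filter fun p => t0 ≤ rq A1 p with hL'def
  have hL'0 : 0 < (L'.card : ℝ) := by
    rcases (Nat.cast_nonneg (α := ℝ) L'.card).eq_or_lt with h | h
    · rw [← h] at h6
      simp only [mul_zero, zero_mul] at h6
      linarith
    · exact h
  set lp := Real.log L'.card with hlpdef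
  have g11 : f3 ≤ Real.log 2 + lp + 3 * M := by
    have := Real.log_le_log hF0 h6
    rw [Real.log_mul (by positivity) (by positivity), Real.log_mul (by positivity) (by positivity),
      Real.log_pow] at this
    push_cast at this
    exact this
  obtain ⟨L, hLpos, hLr, hLc⟩ := popular_ratios A1 L' hpos1
    (fun p hp => prods_pos hpos1 (mem_filter.1 hp).1)
    (card_pos.1 (by exact_mod_cast hL'0)) t0 A.card ht00 (fun p hp => (mem_filter.1 hp).2) hm0 hA1m
  have hL0 : 0 < (L.card : ℝ) := by
    rcases (Nat.cast_nonneg (α := ℝ) L.card).eq_or_lt with h | h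
    · rw [← h] at hLc
      have : 0 < (L'.card : ℝ) * t0 ^ 2 := by positivity
      simp only [mul_zero] at hLc
      linarith
    · exact h
  set lL := Real.log L.card with hlLdef
  have g12 : lp + 2 * t ≤ Real.log 2 + 2 * M + lL := by
    have := Real.log_le_log (by positivity) hLc
    rw [Real.log_mul (by positivity) (by positivity), Real.log_mul (by positivity) (by positivity),
      Real.log_mul (by positivity) (by positivity), Real.log_pow, Real.log_pow] at this
    push_cast at this
    exact this
  set rho : ℕ := ⌈t0 ^ 2 / (2 * (A.card : ℝ))⌉₊ with hrhodef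
  have hrho1 : 1 ≤ rho := by
    rw [hrhodef, Nat.one_le_iff_ne_zero, ← Nat.pos_iff_ne_zero, Nat.ceil_pos]
    positivity
  have hrho0 : (0 : ℝ) < rho := by exact_mod_cast (show 0 < rho by omega)
  have hrhoge : t0 ^ 2 / (2 * (A.card : ℝ)) ≤ rho := Nat.le_ceil _
  set ro := Real.log rho with hrodef
  have g13 : 2 * t - (Real.log 2 + M) ≤ ro := by
    have := Real.log_le_log (by positivity) hrhoge
    rw [Real.log_div (by positivity) (by positivity), Real.log_mul (by positivity) (by positivity),
      Real.log_pow] at this
    push_cast at this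
    exact this
  have hLr' : ∀ y ∈ L, rho ≤ rr A1 y := by
    intro y hy
    rw [hrhodef]
    exact Nat.ceil_le.2 (hLr y hy)
  rw [hlog16] at g3
  rw [hlog64] at g5
  rw [hlog4096] at g7
  rw [hlog8] at g10
  rcases two A A1 P hA1 hpos D hD0 hdeg rho hrho1 L hLpos hLr' with h | h
  · have g14 : lL + 3 * ro + 8 * d ≤ 15 * Real.log 2 + 4 * M + 6 * n := by
      have := Real.log_le_log (by positivity) h
      rw [Real.log_mul (by positivity) (by positivity), Real.log_mul (by positivity) (by positivity),
        Real.log_mul (by positivity) (by positivity), Real.log_mul (by positivity) (by positivity),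
        Real.log_pow, Real.log_pow, Real.log_pow, Real.log_pow, Real.log_pow] at this
      push_cast at this
      exact this
    rw [hxdef] at g10
    linarith
  · have g14 : 3 * lL + 6 * ro + 18 * d ≤ 36 * Real.log 2 + 8 * M + 16 * n := by
      have := Real.log_le_log (by positivity) h
      rw [Real.log_mul (by positivity) (by positivity), Real.log_mul (by positivity) (by positivity),
        Real.log_mul (by positivity) (by positivity), Real.log_mul (by positivity) (by positivity),
        Real.log_pow, Real.log_pow, Real.log_pow, Real.log_pow, Real.log_pow, Real.log_pow] at this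
      push_cast at this
      exact this
    rw [hxdef] at g10
    linarith

end SdG
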