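import Mathlib

/-!
# Additive 3-Sidon or multiplicative 2-Sidon subsets: definitions

MP_c028f8_co, project SdG (owner helper98); paper proof /team-store/c028f8_g32.md. Everything is about finite sets of real numbers.
-/

set_option autoImplicit false

namespace SdG

open Finset

/-- every `s` has at most `g` representations `s = a + b` with `a ≤ b` in `B` -/
def AddSid (g : ℕ) (B : Finset ℝ) : Prop :=
  ∀ s : ℝ, ((B ×ˢ B).filter fun x => x.1 ≤ x.2 ∧ x.1 + x.2 = s).card ≤ g

/-- every `p` has at most `g` representations `p = a * b` with `a ≤ b` in `B` -/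
def MulSid (g : ℕ) (B : Finset ℝ) : Prop :=
  ∀ p : ℝ, ((B ×ˢ B).filter fun x => x.1 ≤ x.2 ∧ x.1 * x.2 = p).card ≤ g

/-- number of ordered representations `s = a + b` -/
noncomputable def rp (A : Finset ℝ) (s : ℝ) : ℕ := (A.filter fun a => s - a ∈ A).card

/-- number of ordered representations `p = a * b` (for sets of positive numbers) -/
noncomputable def rq (A : Finset ℝ) (p : ℝ) : ℕ := (A.filter fun a => p / a ∈ A).card

/-- sumset -/
noncomputable def sums (A : Finset ℝ) : Finset ℝ := (A ×ˢ A).image fun x => x.1 + x.2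

/-- product set -/
noncomputable def prods (A : Finset ℝ) : Finset ℝ := (A ×ˢ A).image fun x => x.1 * x.2

/-- quotient set -/
noncomputable def quos (A : Finset ℝ) : Finset ℝ := (A ×ˢ A).image fun x => x.1 / x.2

/-- `|A ∩ lam A|` (for sets of positive numbers and `lam > 0`) -/
noncomputable def rr (A : Finset ℝ) (lam : ℝ) : ℕ := (A.filter fun a => a / lam ∈ A).card

/-- additive energy of order `k` -/
noncomputable def Ek (k : ℕ) (A : Finset ℝ) : ℝ := ∑ s ∈ sums A, (rp A s : ℝ) ^ k

/-- multiplicative energy of order `k` -/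
noncomputable def Fk (k : ℕ) (A : Finset ℝ) : ℝ := ∑ p ∈ prods A, (rq A p : ℝ) ^ k

/-- multiplicative energy of order two, with quotients -/
noncomputable def F2 (A : Finset ℝ) : ℝ := ∑ lam ∈ quos A, (rr A lam : ℝ) ^ 2

end SdG
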