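import Pool.Agent.Lib.SdG.ST

/-!
# Direct incidence bound for popular products

MP_c028f8_co, project SdG (owner helper98); Lemma 3 of /team-store/c028f8_g32.md.
-/

set_option autoImplicit false

namespace SdG

open Finset

/-- choice of the number of blocks -/
theorem opt (n : ℕ) (x T N : ℝ) (hx : 0 ≤ x) (hN : 0 < N) (hT : 4 * N ≤ T) (hTn : T ≤ n * N)
    (h : ∀ r : ℕ, 1 ≤ r → r ≤ n → x * T ≤ 2 * r * (x * N) + 4 * (n : ℝ) ^ 4 / (r : ℝ) ^ 2) :
    x * T ^ 3 ≤ 512 * (n : ℝ) ^ 4 * N ^ 2 := by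
  have hT0 : 0 < T := by linarith
  set y : ℝ := T / (4 * N) with hy
  have hy1 : 1 ≤ y := by
    rw [hy, le_div_iff₀ (by positivity)]
    linarith
  have hyT : y * (4 * N) = T := by
    rw [hy]
    field_simp
  set r : ℕ := ⌊y⌋₊ with hr
  have hr1 : 1 ≤ r := by
    rw [hr]
    exact Nat.le_floor (by exact_mod_cast hy1)
  have hry : (r : ℝ) ≤ y := Nat.floor_le (by linarith)
  have hyr : y < r + 1 := Nat.lt_floor_add_one y
  have hrR : (1 : ℝ) ≤ r := by exact_mod_cast hr1
  have hrn : r ≤ n := by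
    have : (r : ℝ) ≤ n := by
      have h1 : y ≤ n := by
        have : y * (4 * N) ≤ n * (4 * N) := by nlinarith
        exact le_of_mul_le_mul_right this (by positivity)
      linarith
    exact_mod_cast this
  have h1 := h r hr1 hrn
  have h2 : 2 * (r : ℝ) * (x * N) ≤ x * T / 2 := by
    have : 2 * (r : ℝ) * (x * N) = (x * N) * (2 * r) := by ring
    rw [this]
    have h3 : x * T / 2 = (x * N) * (2 * y) := by
      rw [← hyT]
      ring
    rw [h3]
    exact mul_le_mul_of_nonneg_left (by linarith) (by positivity)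
  have h3 : x * T / 2 ≤ 4 * (n : ℝ) ^ 4 / (r : ℝ) ^ 2 := by linarith
  rw [le_div_iff₀ (by positivity)] at h3
  -- r ≥ y / 2 = T / (8 N)
  have h4 : T ≤ 8 * N * r := by
    have : y ≤ 2 * r := by linarith
    calc T = y * (4 * N) := hyT.symm
      _ ≤ (2 * r) * (4 * N) := by gcongr
      _ = 8 * N * r := by ring
  have h5 : T ^ 2 ≤ (8 * N * r) ^ 2 := by gcongr
  calc x * T ^ 3 = x * T * T ^ 2 := by ring
    _ ≤ x * T * (8 * N * r) ^ 2 := by gcongr
    _ = (x * T / 2 * (r : ℝ) ^ 2) * (128 * N ^ 2) := by ring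
    _ ≤ (4 * (n : ℝ) ^ 4) * (128 * N ^ 2) := by gcongr
    _ = 512 * (n : ℝ) ^ 4 * N ^ 2 := by ring

/-- double counting of degrees -/
theorem sum_deg (A P B : Finset ℝ) (D : ℝ)
    (hdeg : ∀ a ∈ B, D ≤ ((P.filter fun s => s - a ∈ A).card : ℝ)) :
    (B.card : ℝ) * D ≤ ∑ s ∈ P, ((B.filter fun a => s - a ∈ A).card : ℝ) := by
  have h1 : ∑ s ∈ P, ((B.filter fun a => s - a ∈ A).card : ℝ) =
      ∑ a ∈ B, ((P.filter fun s => s - a ∈ A).card : ℝ) := by
    have e1 : ∀ s, ((B.filter fun a => s - a ∈ A).card : ℝ) = ∑ a ∈ B, if s - a ∈ A then (1 : ℝ) else 0 := by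
      intro s
      rw [card_filter]
      push_cast
      rfl
    have e2 : ∀ a, ((P.filter fun s => s - a ∈ A).card : ℝ) = ∑ s ∈ P, if s - a ∈ A then (1 : ℝ) else 0 := by
      intro a
      rw [card_filter]
      push_cast
      rfl
    simp only [e1, e2]
    exact sum_comm
  rw [h1]
  calc (B.card : ℝ) * D = ∑ a ∈ B, D := by rw [sum_const, nsmul_eq_mul]
    _ ≤ _ := sum_le_sum hdeg

theorem deg_le_card (A P : Finset ℝ) (a : ℝ) : (P.filter fun s => s - a ∈ A).card ≤ A.card := by
  refine card_le_card_of_injOn (fun s => s - a) ?_ ?_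
  · intro s hs
    exact (mem_filter.1 (mem_coe.1 hs)).2
  · intro s _ s' _ h
    have h : s - a = s' - a := h
    linarith

theorem direct (A A1 P : Finset ℝ) (hA1 : A1 ⊆ A) (hpos : ∀ a ∈ A, 0 < a) (D : ℝ) (hD : 0 < D)
    (hdeg : ∀ a ∈ A1, D ≤ ((P.filter fun s => s - a ∈ A).card : ℝ))
    (t : ℕ) (ht : 1 ≤ t) (Lam : Finset ℝ)
    (hLam : ∀ p ∈ Lam, t ≤ (A1.filter fun a => p / a ∈ A).card) :
    (Lam.card : ℝ) * (t * D) ^ 3 ≤ 512 * (A.card : ℝ) ^ 4 * (P.card : ℝ) ^ 2 := by
  rcases Lam.eq_empty_or_nonempty with rfl | ⟨p0, hp0⟩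
  · simp only [card_empty, Nat.cast_zero, zero_mul]
    positivity
  have htR : (1 : ℝ) ≤ t := by exact_mod_cast ht
  obtain ⟨a0, ha0⟩ : (A1.filter fun a => p0 / a ∈ A).Nonempty := by
    rw [← card_pos]
    have := hLam p0 hp0
    omega
  have ha0A : a0 ∈ A1 := (mem_filter.1 ha0).1
  have hDN : D ≤ P.card := (hdeg a0 ha0A).trans (by exact_mod_cast card_filter_le _ _)
  have hDm : D ≤ A.card := (hdeg a0 ha0A).trans (by exact_mod_cast deg_le_card A P a0)
  have hN : (0 : ℝ) < P.card := by linarith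
  have hm : (0 : ℝ) < A.card := by linarith
  have htm : (t : ℝ) ≤ A.card := by
    have h1 := (hLam p0 hp0).trans ((card_filter_le _ _).trans (card_le_card hA1))
    exact_mod_cast h1
  have hposp : ∀ p ∈ Lam, 0 < p := by
    intro p hp
    obtain ⟨a, ha⟩ : (A1.filter fun a => p / a ∈ A).Nonempty := by
      rw [← card_pos]
      have := hLam p hp
      omega
    rw [mem_filter] at ha
    have h1 := hpos _ ha.2
    have h2 := hpos _ (hA1 ha.1)
    have : p = p / a * a := by field_simp
    rw [this]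
    positivity
  -- incidences
  set Y : Finset ℝ := A.image fun a => a⁻¹ with hY
  have hinc : ∀ p ∈ Lam, (t : ℝ) * D ≤ ∑ s ∈ P, ((on A Y (p, s)).card : ℝ) := by
    intro p hp
    have h1 := sum_deg A P (A1.filter fun a => p / a ∈ A) D fun a ha => hdeg a (mem_filter.1 ha).1
    have h2 : (t : ℝ) * D ≤ ((A1.filter fun a => p / a ∈ A).card : ℝ) * D :=
      mul_le_mul_of_nonneg_right (by exact_mod_cast hLam p hp) hD.le
    refine h2.trans (h1.trans ?_)
    refine sum_le_sum fun s _ => ?_
    have h3 : ((A1.filter fun a => p / a ∈ A).filter fun a => s - a ∈ A).card ≤ (on A Y (p, s)).card := by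
      refine card_le_card_of_injOn (fun a => (s - a, (p / a)⁻¹)) ?_ ?_
      · intro a ha
        rw [mem_coe, mem_filter, mem_filter] at ha
        unfold on
        rw [mem_coe, mem_filter, mem_product]
        have ha0 := hpos _ (hA1 ha.1.1)
        have hp0 := hposp p hp
        refine ⟨⟨ha.2, ?_⟩, ?_⟩
        · rw [hY]
          exact mem_image_of_mem _ ha.1.2
        · show s - a + p * (p / a)⁻¹ = s
          rw [inv_div]
          field_simp
          ring
      · intro a _ b _ h
        have := (Prod.mk.inj h).1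
        linarith
    exact_mod_cast h3
  have hYc : Y.card ≤ A.card := card_image_le
  rcases le_or_gt (4 * (P.card : ℝ)) (t * D) with hc | hc
  · refine opt A.card Lam.card (t * D) P.card (Nat.cast_nonneg _) hN hc ?_ ?_
    · exact mul_le_mul htm hDN hD.le (Nat.cast_nonneg _)
    · intro r hr1 hrn
      have h1 := st A.card r hr1 hrn A Y le_rfl hYc (Lam ×ˢ P) (by
        intro l hl
        rw [mem_product] at hl
        exact (hposp _ hl.1).ne')
      rw [sum_product, card_product] at h1
      have h2 : (Lam.card : ℝ) * (t * D) ≤ ∑ p ∈ Lam, ∑ s ∈ P, ((on A Y (p, s)).card : ℝ) := by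
        calc (Lam.card : ℝ) * (t * D) = ∑ p ∈ Lam, ((t : ℝ) * D) := by rw [sum_const, nsmul_eq_mul]
          _ ≤ _ := sum_le_sum hinc
      push_cast at h1
      linarith
  · -- trivial bound
    have h1 : Lam.card * t ≤ A.card * A.card := by
      have h2 : (Lam.sigma fun p => A1.filter fun a => p / a ∈ A).card ≤ (A ×ˢ A).card := by
        refine card_le_card_of_injOn (fun x => (x.2, x.1 / x.2)) ?_ ?_
        · intro x hx
          rw [mem_coe, mem_sigma, mem_filter] at hx
          rw [mem_coe, mem_product]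
          exact ⟨hA1 hx.2.1, hx.2.2⟩
        · intro x hx y hy h
          rw [mem_coe, mem_sigma, mem_filter] at hx hy
          have hxy := Prod.mk.inj h
          have h3 : x.2 = y.2 := hxy.1
          have h4 : x.1 / x.2 = y.1 / y.2 := hxy.2
          rw [h3] at h4
          have h5 := (hpos _ (hA1 hy.2.1)).ne'
          have h6 : x.1 = y.1 := by
            field_simp at h4
            exact h4
          rcases x with ⟨x1, x2⟩
          rcases y with ⟨y1, y2⟩
          simp only at h3 h6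
          subst h3 h6
          rfl
      rw [card_sigma, card_product] at h2
      refine le_trans ?_ h2
      calc Lam.card * t = ∑ p ∈ Lam, t := by rw [sum_const, smul_eq_mul]
        _ ≤ _ := sum_le_sum hLam
    have h1R : (Lam.card : ℝ) * t ≤ (A.card : ℝ) * A.card := by exact_mod_cast h1
    have hmm : (1 : ℝ) ≤ A.card := by
      have : 0 < A.card := by exact_mod_cast hm
      exact_mod_cast this
    calc (Lam.card : ℝ) * (t * D) ^ 3 = (Lam.card : ℝ) * t * D * (t * D) ^ 2 := by ring
      _ ≤ (A.card : ℝ) * A.card * A.card * (4 * P.card) ^ 2 := by gcongr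
      _ = 16 * ((A.card : ℝ) ^ 3 * 1) * (P.card : ℝ) ^ 2 := by ring
      _ ≤ 512 * ((A.card : ℝ) ^ 3 * A.card) * (P.card : ℝ) ^ 2 := by gcongr; norm_num
      _ = _ := by ring

end SdG
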