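import Pool.Agent.Lib.SdG.Pop

/-!
# The multiplicative energy of order two, popular products, popular ratios

MP_c028f8_co, project SdG (owner helper98); Steps 5, 6 and 7 of /team-store/c028f8_g32.md.
-/

set_option autoImplicit false

namespace SdG

open Finset

theorem fk2_le_f2 (A : Finset ℝ) (hpos : ∀ a ∈ A, 0 < a) : Fk 2 A ≤ F2 A := by
  unfold Fk F2
  have h1 : ((prods A).sigma fun p => (A.filter fun a => p / a ∈ A) ×ˢ (A.filter fun a => p / a ∈ A)).card ≤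
      ((quos A).sigma fun l => (A.filter fun a => a / l ∈ A) ×ˢ (A.filter fun a => a / l ∈ A)).card := by
    refine card_le_card_of_injOn
      (fun x => (⟨x.2.1 / x.2.2, (x.2.1, x.1 / x.2.2)⟩ : Σ _ : ℝ, ℝ × ℝ)) ?_ ?_
    · intro x hx
      rw [mem_coe, mem_sigma, mem_product, mem_filter, mem_filter] at hx
      obtain ⟨h1, ⟨h2, h3⟩, h4, h5⟩ := hx
      have p2 := hpos _ h2
      have p4 := hpos _ h4
      rw [mem_coe, mem_sigma, mem_product, mem_filter, mem_filter]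
      refine ⟨?_, ⟨h2, ?_⟩, h5, ?_⟩
      · unfold quos
        rw [mem_image]
        exact ⟨(x.2.1, x.2.2), mem_product.2 ⟨h2, h4⟩, rfl⟩
      · show x.2.1 / (x.2.1 / x.2.2) ∈ A
        have : x.2.1 / (x.2.1 / x.2.2) = x.2.2 := by field_simp
        rw [this]
        exact h4
      · show x.1 / x.2.2 / (x.2.1 / x.2.2) ∈ A
        have : x.1 / x.2.2 / (x.2.1 / x.2.2) = x.1 / x.2.1 := by field_simp
        rw [this]
        exact h3
    · intro x hx y hy h
      rw [mem_coe, mem_sigma, mem_product, mem_filter, mem_filter] at hx hy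
      obtain ⟨h1, ⟨h2, h3⟩, h4, h5⟩ := hx
      obtain ⟨k1, ⟨k2, k3⟩, k4, k5⟩ := hy
      have p2 := (hpos _ h2).ne'
      have p4 := (hpos _ h4).ne'
      have q2 := (hpos _ k2).ne'
      have q4 := (hpos _ k4).ne'
      rcases x with ⟨p, a, b⟩
      rcases y with ⟨p', a', b'⟩
      simp only [Sigma.mk.injEq, heq_eq_eq, Prod.mk.injEq] at h p2 p4 q2 q4
      obtain ⟨e1, e2, e3⟩ := h
      subst e2
      have e4 : b = b' := by
        field_simp at e1
        exact e1.symm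
      subst e4
      have e5 : p = p' := by
        field_simp at e3
        exact e3
      subst e5
      rfl
  rw [card_sigma, card_sigma] at h1
  have h2 : ∑ p ∈ prods A, rq A p ^ 2 ≤ ∑ l ∈ quos A, rr A l ^ 2 := by
    refine le_trans (le_of_eq ?_) (h1.trans (le_of_eq ?_))
    · refine sum_congr rfl fun p _ => ?_
      rw [card_product, sq]
      rfl
    · refine sum_congr rfl fun p _ => ?_
      rw [card_product, sq]
      rfl
  exact_mod_cast h2

theorem quos_pos {A : Finset ℝ} (hpos : ∀ a ∈ A, 0 < a) {p : ℝ} (hp : p ∈ quos A) : 0 < p := by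
  unfold quos at hp
  rw [mem_image] at hp
  obtain ⟨x, hx, rfl⟩ := hp
  rw [mem_product] at hx
  exact div_pos (hpos _ hx.1) (hpos _ hx.2)

theorem rr_pos {A : Finset ℝ} (hpos : ∀ a ∈ A, 0 < a) {p : ℝ} (hp : p ∈ quos A) : 1 ≤ rr A p := by
  unfold quos at hp
  rw [mem_image] at hp
  obtain ⟨x, hx, rfl⟩ := hp
  rw [mem_product] at hx
  unfold rr
  rw [Nat.one_le_iff_ne_zero, ← Nat.pos_iff_ne_zero, card_pos]
  refine ⟨x.1, mem_filter.2 ⟨hx.1, ?_⟩⟩
  have h1 := (hpos _ hx.1).ne'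
  have h2 := (hpos _ hx.2).ne'
  have : x.1 / (x.1 / x.2) = x.2 := by field_simp
  rw [this]
  exact hx.2

theorem rr_le (A : Finset ℝ) (s : ℝ) : rr A s ≤ A.card := card_filter_le _ _

theorem card_mul_rho (A : Finset ℝ) (hpos : ∀ a ∈ A, 0 < a) (rho : ℕ) (L : Finset ℝ)
    (hLpos : ∀ l ∈ L, 0 < l) (hL : ∀ l ∈ L, rho ≤ rr A l) : L.card * rho ≤ A.card * A.card := by
  have h2 : (L.sigma fun l => A.filter fun a => a / l ∈ A).card ≤ (A ×ˢ A).card := by
    refine card_le_card_of_injOn (fun x => (x.2, x.2 / x.1)) ?_ ?_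
    · intro x hx
      rw [mem_coe, mem_sigma, mem_filter] at hx
      rw [mem_coe, mem_product]
      exact ⟨hx.2.1, hx.2.2⟩
    · intro x hx y hy h
      rw [mem_coe, mem_sigma, mem_filter] at hx hy
      have hxy := Prod.mk.inj h
      have h3 : x.2 = y.2 := hxy.1
      have h4 : x.2 / x.1 = y.2 / y.1 := hxy.2
      rw [h3] at h4
      have h5 := (hpos _ hy.2.1).ne'
      have h6 := (hLpos _ hx.1).ne'
      have h7 := (hLpos _ hy.1).ne'
      have h8 : x.1 = y.1 := by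
        field_simp at h4
        exact h4.symm
      rcases x with ⟨x1, x2⟩
      rcases y with ⟨y1, y2⟩
      simp only at h3 h8
      subst h3 h8
      rfl
  rw [card_sigma, card_product] at h2
  refine le_trans ?_ h2
  calc L.card * rho = ∑ p ∈ L, rho := by rw [sum_const, smul_eq_mul]
    _ ≤ _ := sum_le_sum hL

/-- Step 5 -/
theorem f2_le (A A1 P : Finset ℝ) (hA1 : A1 ⊆ A) (hpos : ∀ a ∈ A, 0 < a) (D : ℝ) (hD : 0 < D)
    (hdeg : ∀ a ∈ A1, D ≤ ((P.filter fun s => s - a ∈ A).card : ℝ)) (l : ℕ) (hl : A.card < 2 ^ l)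
    (X : ℝ) (hX0 : 0 < X) (hX1 : 2 ^ 15 * (A.card : ℝ) ^ 6 * (P.card : ℝ) ^ 6 ≤ X ^ 2 * D ^ 8)
    (hX2 : 2 ^ 36 * (A.card : ℝ) ^ 8 * (P.card : ℝ) ^ 16 ≤ X ^ 3 * D ^ 18) :
    F2 A1 ≤ 4 * l * X := by
  have hpos1 : ∀ a ∈ A1, 0 < a := fun a ha => hpos a (hA1 ha)
  have h1 := dyadic (quos A1) (rr A1) l (fun s hs => rr_pos hpos1 hs)
    (fun s _ => ((rr_le A1 s).trans (card_le_card hA1)).trans_lt hl) 2
  unfold F2
  refine h1.trans ?_
  have h3 : ∀ j ∈ range l, ((2 : ℝ) ^ (j + 1)) ^ 2 *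
      (((quos A1).filter fun s => Nat.log 2 (rr A1 s) = j).card : ℝ) ≤ 4 * X := by
    intro j _
    set L := (quos A1).filter fun s => Nat.log 2 (rr A1 s) = j with hLdef
    have hLpos : ∀ x ∈ L, 0 < x := fun x hx => quos_pos hpos1 (mem_filter.1 hx).1
    have hL : ∀ x ∈ L, 2 ^ j ≤ rr A1 x := by
      intro x hx
      rw [hLdef, mem_filter] at hx
      have h5 := rr_pos hpos1 hx.1
      rw [← hx.2]
      exact Nat.pow_log_le_self 2 (by omega)
    have h4 := card_mul_rho A1 hpos1 (2 ^ j) L hLpos hL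
    have h5 : L.card * 2 ^ j ≤ A.card * A.card := h4.trans (Nat.mul_le_mul (card_le_card hA1) (card_le_card hA1))
    have h6 : (L.card : ℝ) * ((2 ^ j : ℕ) : ℝ) ≤ (A.card : ℝ) * A.card := by exact_mod_cast h5
    have h7 : (L.card : ℝ) * (((2 ^ j : ℕ) : ℝ)) ^ 2 ≤ X := by
      rcases two A A1 P hA1 hpos D hD hdeg (2 ^ j) Nat.one_le_two_pow L hLpos hL with h | h
      · have h8 : ((L.card : ℝ) * (((2 ^ j : ℕ) : ℝ)) ^ 2) ^ 2 * D ^ 8 ≤ X ^ 2 * D ^ 8 := by
          calc ((L.card : ℝ) * (((2 ^ j : ℕ) : ℝ)) ^ 2) ^ 2 * D ^ 8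
              = ((L.card : ℝ) * (((2 ^ j : ℕ) : ℝ)) ^ 3 * D ^ 8) * ((L.card : ℝ) * ((2 ^ j : ℕ) : ℝ)) := by ring
            _ ≤ (2 ^ 15 * (A.card : ℝ) ^ 4 * (P.card : ℝ) ^ 6) * ((A.card : ℝ) * A.card) := by gcongr
            _ = 2 ^ 15 * (A.card : ℝ) ^ 6 * (P.card : ℝ) ^ 6 := by ring
            _ ≤ _ := hX1
        have h9 := le_of_mul_le_mul_right h8 (by positivity)
        exact le_of_sq_le_sq h9 hX0.le
      · have h8 : ((L.card : ℝ) * (((2 ^ j : ℕ) : ℝ)) ^ 2) ^ 3 * D ^ 18 ≤ X ^ 3 * D ^ 18 := by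
          calc ((L.card : ℝ) * (((2 ^ j : ℕ) : ℝ)) ^ 2) ^ 3 * D ^ 18
              = (L.card : ℝ) ^ 3 * (((2 ^ j : ℕ) : ℝ)) ^ 6 * D ^ 18 := by ring
            _ ≤ _ := h.trans hX2
        have h9 := le_of_mul_le_mul_right h8 (by positivity)
        exact le_of_pow_le_pow_left₀ (by norm_num) hX0.le h9
    calc ((2 : ℝ) ^ (j + 1)) ^ 2 * (L.card : ℝ) = 4 * ((L.card : ℝ) * (((2 ^ j : ℕ) : ℝ)) ^ 2) := by
          push_cast
          ring
      _ ≤ 4 * X := by gcongr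
  refine (sum_le_sum h3).trans (le_of_eq ?_)
  rw [sum_const, card_range, nsmul_eq_mul]
  ring

/-- Step 6 -/
theorem popular_products (A : Finset ℝ) (m t0 : ℝ) (hm : (A.card : ℝ) ≤ m) (ht0 : 0 ≤ t0)
    (h : 2 * t0 * Fk 2 A ≤ Fk 3 A) :
    Fk 3 A ≤ 2 * (((prods A).filter fun p => t0 ≤ rq A p).card : ℝ) * m ^ 3 := by
  have hm0 : 0 ≤ m := le_trans (Nat.cast_nonneg _) hm
  have h1 : Fk 3 A = ∑ p ∈ (prods A).filter (fun p => t0 ≤ rq A p), (rq A p : ℝ) ^ 3 +
      ∑ p ∈ (prods A).filter (fun p => ¬ t0 ≤ rq A p), (rq A p : ℝ) ^ 3 := by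
    unfold Fk
    rw [sum_filter_add_sum_filter_not]
  have h2 : ∑ p ∈ (prods A).filter (fun p => ¬ t0 ≤ rq A p), (rq A p : ℝ) ^ 3 ≤ t0 * Fk 2 A := by
    calc ∑ p ∈ (prods A).filter (fun p => ¬ t0 ≤ rq A p), (rq A p : ℝ) ^ 3
        ≤ ∑ p ∈ (prods A).filter (fun p => ¬ t0 ≤ rq A p), t0 * (rq A p : ℝ) ^ 2 := by
          refine sum_le_sum fun p hp => ?_
          have h3 := (not_le.1 (mem_filter.1 hp).2).le
          calc (rq A p : ℝ) ^ 3 = (rq A p : ℝ) * (rq A p : ℝ) ^ 2 := by ring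
            _ ≤ _ := by gcongr
      _ ≤ ∑ p ∈ prods A, t0 * (rq A p : ℝ) ^ 2 :=
          sum_le_sum_of_subset_of_nonneg (filter_subset _ _) fun _ _ _ => by positivity
      _ = _ := by
          rw [← mul_sum]
          rfl
  have h3 : ∑ p ∈ (prods A).filter (fun p => t0 ≤ rq A p), (rq A p : ℝ) ^ 3 ≤
      (((prods A).filter fun p => t0 ≤ rq A p).card : ℝ) * m ^ 3 := by
    rw [← nsmul_eq_mul, ← sum_const]
    refine sum_le_sum fun p _ => ?_
    have h4 : (rq A p : ℝ) ≤ A.card := by exact_mod_cast card_filter_le _ _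
    have h5 := h4.trans hm
    gcongr
  linarith

/-- Step 7 -/
theorem popular_ratios (A L' : Finset ℝ) (hpos : ∀ a ∈ A, 0 < a) (hL' : ∀ p ∈ L', 0 < p)
    (hne : L'.Nonempty) (t0 m : ℝ) (ht0 : 0 < t0) (ht : ∀ p ∈ L', t0 ≤ rq A p) (hm0 : 0 < m)
    (hm : (A.card : ℝ) ≤ m) :
    ∃ L : Finset ℝ, (∀ l ∈ L, 0 < l) ∧ (∀ l ∈ L, t0 ^ 2 / (2 * m) ≤ rr A l) ∧
      (L'.card : ℝ) * t0 ^ 2 ≤ 2 * m ^ 2 * L.card := by
  -- double counting
  have hc : (0 : ℝ) < L'.card := by exact_mod_cast card_pos.2 hne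
  set c : ℝ → ℝ := fun b => ((L'.filter fun p => p / b ∈ A).card : ℝ) with hcdef
  set w : ℝ → ℝ → ℝ := fun p' p => ((A.filter fun b => p / b ∈ A ∧ p' / b ∈ A).card : ℝ) with hwdef
  have h1 : (L'.card : ℝ) * t0 ≤ ∑ b ∈ A, c b := by
    have e1 : ∑ b ∈ A, c b = ∑ p ∈ L', (rq A p : ℝ) := by
      have a1 : ∀ b, c b = ∑ p ∈ L', if p / b ∈ A then (1 : ℝ) else 0 := by
        intro b
        rw [hcdef]
        show ((L'.filter fun p => p / b ∈ A).card : ℝ) = _
        rw [card_filter]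
        push_cast
        rfl
      have a2 : ∀ p, (rq A p : ℝ) = ∑ b ∈ A, if p / b ∈ A then (1 : ℝ) else 0 := by
        intro b
        unfold rq
        rw [card_filter]
        push_cast
        rfl
      simp only [a1, a2]
      exact sum_comm
    rw [e1, ← nsmul_eq_mul, ← sum_const]
    exact sum_le_sum ht
  have h2 : (∑ b ∈ A, c b) ^ 2 ≤ (A.card : ℝ) * ∑ b ∈ A, c b ^ 2 := sq_sum_le_card_mul_sum_sq
  have h3 : ∑ b ∈ A, c b ^ 2 = ∑ p' ∈ L', ∑ p ∈ L', w p' p := by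
    have a1 : ∀ b, c b ^ 2 = ∑ p' ∈ L', ∑ p ∈ L', if (p / b ∈ A ∧ p' / b ∈ A) then (1 : ℝ) else 0 := by
      intro b
      have b1 : c b = ∑ p ∈ L', if p / b ∈ A then (1 : ℝ) else 0 := by
        rw [hcdef]
        show ((L'.filter fun p => p / b ∈ A).card : ℝ) = _
        rw [card_filter]
        push_cast
        rfl
      rw [b1, sq, sum_mul_sum]
      refine sum_congr rfl fun p' _ => sum_congr rfl fun p _ => ?_
      by_cases x1 : p / b ∈ A <;> by_cases x2 : p' / b ∈ A <;> simp [x1, x2]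
    have a2 : ∀ p' p, w p' p = ∑ b ∈ A, if (p / b ∈ A ∧ p' / b ∈ A) then (1 : ℝ) else 0 := by
      intro p' p
      rw [hwdef]
      show ((A.filter fun b => p / b ∈ A ∧ p' / b ∈ A).card : ℝ) = _
      rw [card_filter]
      push_cast
      rfl
    simp only [a1, a2]
    rw [sum_comm]
    refine sum_congr rfl fun p' _ => ?_
    rw [sum_comm]
  have h4 : (L'.card : ℝ) ^ 2 * t0 ^ 2 ≤ m * ∑ p' ∈ L', ∑ p ∈ L', w p' p := by
    calc (L'.card : ℝ) ^ 2 * t0 ^ 2 = ((L'.card : ℝ) * t0) ^ 2 := by ring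
      _ ≤ (∑ b ∈ A, c b) ^ 2 := by gcongr
      _ ≤ (A.card : ℝ) * ∑ b ∈ A, c b ^ 2 := h2
      _ ≤ m * ∑ b ∈ A, c b ^ 2 := by
        refine mul_le_mul_of_nonneg_right hm ?_
        exact sum_nonneg fun _ _ => sq_nonneg _
      _ = _ := by rw [h3]
  obtain ⟨p', hp', h5⟩ : ∃ p' ∈ L', (L'.card : ℝ) * t0 ^ 2 / m ≤ ∑ p ∈ L', w p' p := by
    by_contra hno
    push Not at hno
    have h6 : ∑ p' ∈ L', ∑ p ∈ L', w p' p < ∑ p' ∈ L', (L'.card : ℝ) * t0 ^ 2 / m :=
      sum_lt_sum_of_nonempty hne hno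
    rw [sum_const, nsmul_eq_mul] at h6
    have h7 : m * ∑ p' ∈ L', ∑ p ∈ L', w p' p < m * ((L'.card : ℝ) * ((L'.card : ℝ) * t0 ^ 2 / m)) :=
      mul_lt_mul_of_pos_left h6 hm0
    have h8 : m * ((L'.card : ℝ) * ((L'.card : ℝ) * t0 ^ 2 / m)) = (L'.card : ℝ) ^ 2 * t0 ^ 2 := by
      field_simp
    linarith
  have hp'0 := hL' p' hp'
  set S := L'.filter fun p => t0 ^ 2 / (2 * m) ≤ w p' p with hS
  have h6 : ∑ p ∈ L', w p' p ≤ (S.card : ℝ) * m + (L'.card : ℝ) * (t0 ^ 2 / (2 * m)) := by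
    rw [← sum_filter_add_sum_filter_not L' (fun p => t0 ^ 2 / (2 * m) ≤ w p' p)]
    refine add_le_add ?_ ?_
    · rw [← nsmul_eq_mul, ← sum_const]
      refine sum_le_sum fun p _ => ?_
      have : ((A.filter fun b => p / b ∈ A ∧ p' / b ∈ A).card : ℝ) ≤ A.card := by
        exact_mod_cast card_filter_le _ _
      exact this.trans hm
    · calc ∑ p ∈ L'.filter (fun p => ¬ t0 ^ 2 / (2 * m) ≤ w p' p), w p' p
          ≤ ∑ p ∈ L'.filter (fun p => ¬ t0 ^ 2 / (2 * m) ≤ w p' p), t0 ^ 2 / (2 * m) :=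
            sum_le_sum fun p hp => (not_le.1 (mem_filter.1 hp).2).le
        _ = ((L'.filter (fun p => ¬ t0 ^ 2 / (2 * m) ≤ w p' p)).card : ℝ) * (t0 ^ 2 / (2 * m)) := by
            rw [sum_const, nsmul_eq_mul]
        _ ≤ _ := by
            refine mul_le_mul_of_nonneg_right ?_ (by positivity)
            exact_mod_cast card_filter_le _ _
  refine ⟨S.image fun p => p / p', ?_, ?_, ?_⟩
  · intro l hl
    rw [mem_image] at hl
    obtain ⟨p, hp, rfl⟩ := hl
    exact div_pos (hL' p (mem_filter.1 hp).1) hp'0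
  · intro l hl
    rw [mem_image] at hl
    obtain ⟨p, hp, rfl⟩ := hl
    rw [hS, mem_filter] at hp
    refine hp.2.trans ?_
    have hp0 := hL' p hp.1
    have h7 : (A.filter fun b => p / b ∈ A ∧ p' / b ∈ A).card ≤ rr A (p / p') := by
      unfold rr
      refine card_le_card_of_injOn (fun b => p / b) ?_ ?_
      · intro b hb
        rw [mem_coe, mem_filter] at hb
        have hb0 := hpos b hb.1
        rw [mem_coe, mem_filter]
        refine ⟨hb.2.1, ?_⟩
        have : p / b / (p / p') = p' / b := by field_simp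
        show p / b / (p / p') ∈ A
        rw [this]
        exact hb.2.2
      · intro b hb b' hb' h
        rw [mem_coe, mem_filter] at hb hb'
        have hb0 := (hpos b hb.1).ne'
        have hb0' := (hpos b' hb'.1).ne'
        have h : p / b = p / b' := h
        field_simp at h
        exact h.symm
    show ((A.filter fun b => p / b ∈ A ∧ p' / b ∈ A).card : ℝ) ≤ _
    exact_mod_cast h7
  · have h7 : ((S.image fun p => p / p').card : ℝ) = S.card := by
      rw [card_image_of_injOn]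
      intro p _ q _ h
      have h : p / p' = q / p' := h
      field_simp at h
      exact h
    rw [h7]
    have h8 : (L'.card : ℝ) * t0 ^ 2 / m - (L'.card : ℝ) * (t0 ^ 2 / (2 * m)) ≤ (S.card : ℝ) * m := by linarith
    have h9 : (L'.card : ℝ) * t0 ^ 2 / m - (L'.card : ℝ) * (t0 ^ 2 / (2 * m)) =
        (L'.card : ℝ) * t0 ^ 2 / (2 * m) := by
      field_simp
      ring
    rw [h9, div_le_iff₀ (by positivity)] at h8
    calc (L'.card : ℝ) * t0 ^ 2 ≤ (S.card : ℝ) * m * (2 * m) := h8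
      _ = _ := by ring

end SdG
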