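import Pool.Agent.Lib.SdG.Core

/-!
# Regular subsets, and the theorem

MP_c028f8_co, project SdG (owner helper98); /team-store/c028f8_g32.md.
-/

set_option autoImplicit false

namespace SdG

open Finset

theorem ek_nonneg (k : ℕ) (A : Finset ℝ) : 0 ≤ Ek k A := sum_nonneg fun _ _ => by positivity

/-- regular subsets -/
theorem reg (A : Finset ℝ) (Q : ℝ) (hQ : 0 ≤ Q) (J : ℕ) :
    (∃ B ⊆ A, A.card ≤ 2 ^ J * B.card ∧ ∀ A' ⊆ B, B.card ≤ 2 * A'.card → Ek 4 B ≤ Q * Ek 4 A') ∨
    (∃ B ⊆ A, A.card ≤ 2 ^ J * B.card ∧ Q ^ J * Ek 4 B ≤ Ek 4 A) := by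
  induction J with
  | zero => exact Or.inr ⟨A, Subset.refl _, by simp, by simp⟩
  | succ J ih =>
    rcases ih with ⟨B, hB, hc, h⟩ | ⟨B, hB, hc, h⟩
    · refine Or.inl ⟨B, hB, hc.trans (Nat.mul_le_mul_right _ ?_), h⟩
      exact Nat.pow_le_pow_right (by norm_num) (Nat.le_succ _)
    · by_cases hr : ∀ A' ⊆ B, B.card ≤ 2 * A'.card → Ek 4 B ≤ Q * Ek 4 A'
      · refine Or.inl ⟨B, hB, hc.trans (Nat.mul_le_mul_right _ ?_), hr⟩
        exact Nat.pow_le_pow_right (by norm_num) (Nat.le_succ _)
      · push Not at hr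
        obtain ⟨B', hB', hc', h'⟩ := hr
        refine Or.inr ⟨B', hB'.trans hB, ?_, ?_⟩
        · calc A.card ≤ 2 ^ J * B.card := hc
            _ ≤ 2 ^ J * (2 * B'.card) := Nat.mul_le_mul_left _ hc'
            _ = 2 ^ (J + 1) * B'.card := by ring
        · calc Q ^ (J + 1) * Ek 4 B' = Q ^ J * (Q * Ek 4 B') := by ring
            _ ≤ Q ^ J * Ek 4 B := mul_le_mul_of_nonneg_left h'.le (by positivity)
            _ ≤ Ek 4 A := h

theorem ek_le (A : Finset ℝ) : Ek 4 A ≤ (A.card : ℝ) ^ 6 := by
  unfold Ek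
  have h1 : ((sums A).card : ℝ) ≤ (A.card : ℝ) * A.card := by
    have : (sums A).card ≤ A.card * A.card := by
      unfold sums
      refine card_image_le.trans ?_
      rw [card_product]
    exact_mod_cast this
  calc ∑ s ∈ sums A, (rp A s : ℝ) ^ 4 ≤ ∑ s ∈ sums A, (A.card : ℝ) ^ 4 := by
        refine sum_le_sum fun s _ => ?_
        have : (rp A s : ℝ) ≤ A.card := by exact_mod_cast rp_le A s
        gcongr
    _ = (sums A).card * (A.card : ℝ) ^ 4 := by rw [sum_const, nsmul_eq_mul]
    _ ≤ (A.card : ℝ) * A.card * (A.card : ℝ) ^ 4 := by gcongr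
    _ = _ := by ring

theorem log_small (y : ℝ) (hy : 0 < y) : Real.log y ≤ y / 10000000 + 7 * Real.log 10 := by
  have h1 := Real.log_le_sub_one_of_pos (show 0 < y / 10000000 by positivity)
  have h2 : Real.log y = Real.log (y / 10000000) + 7 * Real.log 10 := by
    rw [Real.log_div hy.ne' (by norm_num), show (10000000 : ℝ) = 10 ^ 7 by norm_num, Real.log_pow]
    push_cast
    ring
  linarith

/-- the theorem for positive numbers: the largest good subset is large -/
theorem main_pos : ∃ n0 : ℕ, ∀ A : Finset ℝ, (∀ a ∈ A, 0 < a) → n0 ≤ A.card → ∀ K : ℕ, HK A K →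
    (A.card : ℝ) ^ ((1 : ℝ) / 2 + 1 / 750) ≤ K := by
  obtain ⟨J, hJ⟩ : ∃ J : ℕ, (J : ℝ) = 10000000 := ⟨10000000, by norm_num⟩
  have hJ0 : (0 : ℝ) < J := by rw [hJ]; norm_num
  obtain ⟨c, hc⟩ : ∃ c : ℝ, c = J * Real.log 2 := ⟨_, rfl⟩
  have hlog2 : 0 < Real.log 2 := Real.log_pos (by norm_num)
  have hlog2' : Real.log 2 < 1 := by
    have := Real.log_two_lt_d9
    linarith
  have hlog2'' : 1 / 2 < Real.log 2 := by
    have := Real.log_two_gt_d9
    linarith
  have hlog10 : 0 < Real.log 10 := Real.log_pos (by norm_num)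
  have hc0 : 0 < c := by
    rw [hc]
    positivity
  obtain ⟨n0, hn0⟩ : ∃ n0 : ℕ, Real.exp (1000000 * (1000000 + 10 * c + 100 * Real.log 10)) ≤ n0 :=
    exists_nat_ge _
  refine ⟨n0, fun A hpos hn K hHK => ?_⟩
  by_contra hlt
  push Not at hlt
  have hnR : Real.exp (1000000 * (1000000 + 10 * c + 100 * Real.log 10)) ≤ A.card :=
    hn0.trans (by exact_mod_cast hn)
  have hA0 : (0 : ℝ) < A.card := (Real.exp_pos _).trans_le hnR
  set N := Real.log A.card with hN
  have hNbig : 1000000 * (1000000 + 10 * c + 100 * Real.log 10) ≤ N := by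
    rw [hN, Real.le_log_iff_exp_le hA0]
    exact hnR
  have hAn : 0 < A.card := by exact_mod_cast hA0
  have hK1 : 1 ≤ K := by
    obtain ⟨a, ha⟩ := card_pos.1 hAn
    have := hHK {a} (singleton_subset_iff.2 ha) (Or.inl fun s => by
      refine (card_filter_le _ _).trans ?_
      simp)
    rwa [card_singleton] at this
  have hK0 : (0 : ℝ) < K := by exact_mod_cast (show 0 < K by omega)
  set k := Real.log K with hkdef
  have hk0 : 0 ≤ k := Real.log_nonneg (by exact_mod_cast hK1)
  have hkN : k ≤ (1 / 2 + 1 / 750) * N := by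
    have := Real.log_le_log hK0 hlt.le
    rwa [Real.log_rpow hA0] at this
  -- the regularity parameter
  set q : ℝ := 8 * Real.log 2 + (18 * Real.log 2 + 5 * N) / J with hq
  set Q : ℝ := Real.exp q with hQ
  have hN0 : 0 < N := by
    have : 0 < 1000000 * (1000000 + 10 * c + 100 * Real.log 10) := by positivity
    linarith
  have hq0 : 0 ≤ q := by
    rw [hq]
    positivity
  have hQ1 : 1 ≤ Q := Real.one_le_exp hq0
  have hlogQ : Real.log Q = q := Real.log_exp q
  have hJq : J * q = 8 * c + 18 * Real.log 2 + 5 * N := by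
    rw [hq, hc]
    field_simp
    ring
  -- bound for the size of a subset of the chain
  have hsize : ∀ B : Finset ℝ, A.card ≤ 2 ^ J * B.card → 0 < B.card ∧ N - c ≤ Real.log B.card := by
    intro B hB
    have hB0 : 0 < B.card := by
      rcases Nat.eq_zero_or_pos B.card with h | h
      · rw [h, Nat.mul_zero] at hB
        omega
      · exact h
    refine ⟨hB0, ?_⟩
    have hBR : (0 : ℝ) < B.card := by exact_mod_cast hB0
    have h1 : (A.card : ℝ) ≤ 2 ^ J * B.card := by exact_mod_cast hB
    have h2 := Real.log_le_log hA0 h1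
    rw [Real.log_mul (by positivity) (by positivity), Real.log_pow, ← hc] at h2
    linarith
  have hbig : ∀ B : Finset ℝ, 0 < B.card → N - c ≤ Real.log B.card → 8 * K ≤ B.card := by
    intro B h0 h
    have h0R : (0 : ℝ) < B.card := by exact_mod_cast h0
    have h1 : Real.log (8 * K) ≤ Real.log B.card := by
      rw [Real.log_mul (by norm_num) hK0.ne', ← hkdef]
      have : Real.log 8 = 3 * Real.log 2 := by
        rw [show (8 : ℝ) = 2 ^ 3 by norm_num, Real.log_pow]
        push_cast
        ring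
      rw [this]
      linarith
    have := (Real.log_le_log_iff (by positivity) h0R).1 h1
    exact_mod_cast this
  rcases reg A Q (by linarith) J with ⟨B, hBA, hBc, hreg⟩ | ⟨B, hBA, hBc, hE⟩
  · obtain ⟨hB0, hBlog⟩ := hsize B hBc
    have hBR : (0 : ℝ) < B.card := by exact_mod_cast hB0
    set M := Real.log B.card with hM
    have hM0 : 0 < M := by linarith
    have hMN : M ≤ N := Real.log_le_log hBR (by exact_mod_cast card_le_card hBA)
    refine core B (fun a ha => hpos a (hBA ha)) K hK1 (hHK.mono hBA) Q hQ1 (Nat.log 2 B.card + 1)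
      (Nat.lt_pow_succ_log_self (by norm_num) _) hreg (M / 1000000) ?_ ?_ ?_ ?_ ?_
    · rw [le_div_iff₀ (by norm_num)]
      linarith
    · rw [hlogQ, le_div_iff₀ (by norm_num), hq, hJ]
      linarith
    · have h1 : ((Nat.log 2 B.card : ℕ) : ℝ) ≤ 2 * M := by
        have h2 := Real.natLog_le_logb B.card 2
        rw [Real.logb] at h2
        refine h2.trans ?_
        have : Real.log ((2 : ℕ) : ℝ) = Real.log 2 := by norm_num
        rw [this, div_le_iff₀ hlog2, ← hM]
        nlinarith
      have h2 : (((Nat.log 2 B.card + 1 : ℕ)) : ℝ) ≤ 2 * M + 1 := by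
        push_cast
        linarith
      have h3 : (0 : ℝ) < ((Nat.log 2 B.card + 1 : ℕ) : ℝ) := by
        exact_mod_cast Nat.succ_pos _
      have h4 := (Real.log_le_log h3 h2).trans (log_small (2 * M + 1) (by linarith))
      refine h4.trans ?_
      rw [le_div_iff₀ (by norm_num)]
      linarith
    · rw [← hM]
      linarith
    · rw [← hkdef, ← hM]
      linarith
  · -- the chain is impossible
    obtain ⟨hB0, hBlog⟩ := hsize B hBc
    have hBR : (0 : ℝ) < B.card := by exact_mod_cast hB0
    have h8 := hbig B hB0 hBlog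
    have h1 := e4_ge B B K hK1 (hHK.mono hBA) (Subset.refl _) h8
    have hE0 : 0 < Ek 4 B := by
      by_contra hlt
      push Not at hlt
      have h1 : 2 ^ 17 * (K : ℝ) ^ 7 * Ek 4 B ≤ 0 := mul_nonpos_of_nonneg_of_nonpos (by positivity) hlt
      have h2 : 0 < (B.card : ℝ) ^ 8 := by positivity
      linarith
    have h2 := Real.log_le_log (by positivity) h1
    rw [Real.log_pow, Real.log_mul (by positivity) (by positivity),
      Real.log_mul (by positivity) (by positivity), Real.log_pow, Real.log_pow] at h2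
    push_cast at h2
    have h3 := Real.log_le_log (by positivity) (hE.trans (ek_le A))
    rw [Real.log_mul (by positivity) (by positivity), Real.log_pow, Real.log_pow, hlogQ, hJq] at h3
    push_cast at h3
    linarith

theorem addSid_neg {g : ℕ} {B : Finset ℝ} (h : AddSid g B) : AddSid g (B.image fun x => -x) := by
  intro s
  refine le_trans ?_ (h (-s))
  refine card_le_card_of_injOn (fun x => (-x.2, -x.1)) ?_ ?_
  · intro x hx
    rw [mem_coe, mem_filter, mem_product, mem_image, mem_image] at hx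
    obtain ⟨⟨⟨a, ha, h1⟩, b, hb, h2⟩, h3, h4⟩ := hx
    rw [mem_coe, mem_filter, mem_product]
    refine ⟨⟨?_, ?_⟩, ?_, ?_⟩
    · show -x.2 ∈ B
      rw [← h2, neg_neg]
      exact hb
    · show -x.1 ∈ B
      rw [← h1, neg_neg]
      exact ha
    · show -x.2 ≤ -x.1
      linarith
    · show -x.2 + -x.1 = -s
      linarith
  · intro x _ y _ h
    have hxy := Prod.mk.inj h
    exact Prod.ext (by linarith [hxy.2]) (by linarith [hxy.1])

theorem mulSid_neg {g : ℕ} {B : Finset ℝ} (h : MulSid g B) : MulSid g (B.image fun x => -x) := by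
  intro s
  refine le_trans ?_ (h s)
  refine card_le_card_of_injOn (fun x => (-x.2, -x.1)) ?_ ?_
  · intro x hx
    rw [mem_coe, mem_filter, mem_product, mem_image, mem_image] at hx
    obtain ⟨⟨⟨a, ha, h1⟩, b, hb, h2⟩, h3, h4⟩ := hx
    rw [mem_coe, mem_filter, mem_product]
    refine ⟨⟨?_, ?_⟩, ?_, ?_⟩
    · show -x.2 ∈ B
      rw [← h2, neg_neg]
      exact hb
    · show -x.1 ∈ B
      rw [← h1, neg_neg]
      exact ha
    · show -x.2 ≤ -x.1
      linarith
    · show -x.2 * -x.1 = s
      linarith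
  · intro x _ y _ h
    have hxy := Prod.mk.inj h
    exact Prod.ext (by linarith [hxy.2]) (by linarith [hxy.1])

/-- a largest good subset -/
theorem exists_max (A : Finset ℝ) : ∃ B ⊆ A, (AddSid 3 B ∨ MulSid 2 B) ∧ HK A B.card := by
  classical
  set F := A.powerset.filter fun B => AddSid 3 B ∨ MulSid 2 B with hF
  have hne : F.Nonempty := ⟨∅, by
    rw [hF, mem_filter]
    exact ⟨empty_mem_powerset _, Or.inl fun s => by simp⟩⟩
  obtain ⟨B, hB, hmax⟩ := exists_max_image F card hne
  rw [hF, mem_filter, mem_powerset] at hB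
  refine ⟨B, hB.1, hB.2, fun B' hB' h => hmax B' ?_⟩
  rw [hF, mem_filter, mem_powerset]
  exact ⟨hB', h⟩

theorem main : ∃ c : ℝ, 0 < c ∧ ∀ A : Finset ℝ, ∃ B ⊆ A, (AddSid 3 B ∨ MulSid 2 B) ∧
    c * (A.card : ℝ) ^ ((1 : ℝ) / 2 + 1 / 750) ≤ B.card := by
  obtain ⟨n0, hn0⟩ := main_pos
  refine ⟨1 / (2 * n0 + 3), by positivity, fun A => ?_⟩
  set η : ℝ := (1 : ℝ) / 2 + 1 / 750 with hη
  rcases Nat.eq_zero_or_pos A.card with h0 | h0
  · refine ⟨∅, empty_subset _, Or.inl fun s => by simp, ?_⟩
    rw [h0, Nat.cast_zero, Real.zero_rpow (by rw [hη]; norm_num)]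
    simp
  have hA0 : (0 : ℝ) < A.card := by exact_mod_cast h0
  rcases lt_or_ge A.card (2 * n0 + 3) with hs | hs
  · obtain ⟨a, ha⟩ := card_pos.1 h0
    refine ⟨{a}, singleton_subset_iff.2 ha, Or.inl fun s => ?_, ?_⟩
    · refine (card_filter_le _ _).trans ?_
      simp
    · rw [card_singleton, Nat.cast_one, div_mul_eq_mul_div, one_mul, div_le_one (by positivity)]
      have h1 : (A.card : ℝ) ^ η ≤ (A.card : ℝ) ^ (1 : ℝ) :=
        Real.rpow_le_rpow_of_exponent_le (by exact_mod_cast h0) (by rw [hη]; norm_num)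
      rw [Real.rpow_one] at h1
      refine h1.trans ?_
      exact_mod_cast hs.le
  · -- large sets
    set P := A.filter fun a => 0 < a with hP
    set M := (A.filter fun a => a < 0).image fun a => -a with hM
    have hMc : M.card = (A.filter fun a => a < 0).card := card_image_of_injective _ neg_injective
    have hsum : A.card ≤ P.card + M.card + 1 := by
      rw [hMc]
      have h1 : A ⊆ (P ∪ A.filter fun a => a < 0) ∪ {0} := by
        intro a ha
        rw [mem_union, mem_union, hP, mem_filter, mem_filter, mem_singleton]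
        rcases lt_trichotomy a 0 with h | h | h
        · exact Or.inl (Or.inr ⟨ha, h⟩)
        · exact Or.inr h
        · exact Or.inl (Or.inl ⟨ha, h⟩)
      have h2 := (card_le_card h1).trans (card_union_le _ _)
      rw [card_singleton] at h2
      have h3 := card_union_le P (A.filter fun a => a < 0)
      omega
    have hfin : ∀ A0 : Finset ℝ, (∀ a ∈ A0, 0 < a) → n0 ≤ A0.card → A.card ≤ 3 * A0.card →
        ∃ B ⊆ A0, (AddSid 3 B ∨ MulSid 2 B) ∧ 1 / (2 * (n0 : ℝ) + 3) * (A.card : ℝ) ^ η ≤ B.card := by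
      intro A0 hpos hn h3
      obtain ⟨B, hB, hS, hHK⟩ := exists_max A0
      refine ⟨B, hB, hS, ?_⟩
      refine le_trans ?_ (hn0 A0 hpos hn B.card hHK)
      have h4 : (A.card : ℝ) ≤ 3 * A0.card := by exact_mod_cast h3
      calc 1 / (2 * (n0 : ℝ) + 3) * (A.card : ℝ) ^ η ≤ 1 / 3 * (A.card : ℝ) ^ η := by
            refine mul_le_mul_of_nonneg_right ?_ (by positivity)
            refine one_div_le_one_div_of_le (by norm_num) ?_
            have : (0 : ℝ) ≤ n0 := Nat.cast_nonneg _
            linarith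
        _ ≤ 1 / 3 * (3 * (A0.card : ℝ)) ^ η := by
            refine mul_le_mul_of_nonneg_left ?_ (by norm_num)
            exact Real.rpow_le_rpow hA0.le h4 (by rw [hη]; norm_num)
        _ = 1 / 3 * (3 ^ η * (A0.card : ℝ) ^ η) := by
            rw [Real.mul_rpow (by norm_num) (Nat.cast_nonneg _)]
        _ ≤ 1 / 3 * (3 ^ (1 : ℝ) * (A0.card : ℝ) ^ η) := by
            refine mul_le_mul_of_nonneg_left (mul_le_mul_of_nonneg_right ?_ (by positivity)) (by norm_num)
            exact Real.rpow_le_rpow_of_exponent_le (by norm_num) (by rw [hη]; norm_num)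
        _ = _ := by
            rw [Real.rpow_one]
            ring
    rcases le_or_gt M.card P.card with h | h
    · obtain ⟨B, hB, hS, hc⟩ := hfin P (fun a ha => (mem_filter.1 ha).2) (by omega) (by omega)
      exact ⟨B, hB.trans (filter_subset _ _), hS, hc⟩
    · obtain ⟨B, hB, hS, hc⟩ := hfin M (fun a ha => by
        rw [hM, mem_image] at ha
        obtain ⟨b, hb, rfl⟩ := ha
        have := (mem_filter.1 hb).2
        linarith) (by omega) (by omega)
      refine ⟨B.image fun x => -x, ?_, ?_, ?_⟩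
      · intro a ha
        rw [mem_image] at ha
        obtain ⟨b, hb, rfl⟩ := ha
        have h5 := hB hb
        rw [hM, mem_image] at h5
        obtain ⟨a, ha, rfl⟩ := h5
        rw [neg_neg]
        exact (mem_filter.1 ha).1
      · rcases hS with hS | hS
        · exact Or.inl (addSid_neg hS)
        · exact Or.inr (mulSid_neg hS)
      · rw [card_image_of_injective _ neg_injective]
        exact hc

end SdG
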