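import Pool.Agent.Lib.SdG.Defs

/-!
# The Szemerédi-Trotter bound for grids, by blocks

MP_c028f8_co, project SdG (owner helper98); Lemma 2 of /team-store/c028f8_g32.md.
-/

set_option autoImplicit false

namespace SdG

open Finset

/-- rank of `x` in `X` -/
noncomputable def rk (X : Finset ℝ) (x : ℝ) : ℕ := (X.filter fun y => y < x).card

theorem rk_mono (X : Finset ℝ) {x y : ℝ} (h : x ≤ y) : rk X x ≤ rk X y := by
  unfold rk
  refine card_le_card fun z hz => ?_
  rw [mem_filter] at hz ⊢
  exact ⟨hz.1, hz.2.trans_le h⟩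

theorem rk_lt (X : Finset ℝ) {x y : ℝ} (hx : x ∈ X) (h : x < y) : rk X x < rk X y := by
  unfold rk
  refine card_lt_card ?_
  rw [ssubset_iff_of_subset]
  · refine ⟨x, mem_filter.2 ⟨hx, h⟩, fun hh => lt_irrefl _ (mem_filter.1 hh).2⟩
  · intro z hz
    rw [mem_filter] at hz ⊢
    exact ⟨hz.1, hz.2.trans h⟩

theorem rk_inj (X : Finset ℝ) : Set.InjOn (rk X) (X : Set ℝ) := by
  intro x hx y hy h
  rcases lt_trichotomy x y with h1 | h1 | h1
  · exact absurd h (rk_lt X (mem_coe.1 hx) h1).ne
  · exact h1
  · exact absurd h.symm (rk_lt X (mem_coe.1 hy) h1).ne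

theorem rk_lt_card (X : Finset ℝ) {x : ℝ} (hx : x ∈ X) : rk X x < X.card := by
  unfold rk
  refine card_lt_card ?_
  rw [ssubset_iff_of_subset (filter_subset _ _)]
  exact ⟨x, hx, fun hh => lt_irrefl _ (mem_filter.1 hh).2⟩

theorem card_block (X : Finset ℝ) (q i : ℕ) (hq : 0 < q) :
    (X.filter fun x => rk X x / q = i).card ≤ q := by
  have : (X.filter fun x => rk X x / q = i).card ≤ (Finset.Ico (q * i) (q * i + q)).card := by
    refine card_le_card_of_injOn (rk X) ?_ ?_
    · intro x hx
      rw [mem_coe, mem_filter] at hx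
      rw [mem_coe, mem_Ico]
      have h1 := Nat.div_add_mod (rk X x) q
      have h2 := Nat.mod_lt (rk X x) hq
      rw [hx.2] at h1
      constructor <;> omega
    · intro x hx y hy h
      rw [mem_coe, mem_filter] at hx hy
      exact rk_inj X (mem_coe.2 hx.1) (mem_coe.2 hy.1) h
  simpa using this

/-- the cell of a point -/
noncomputable def cell (q : ℕ) (X Y : Finset ℝ) (z : ℝ × ℝ) : ℕ × ℕ := (rk X z.1 / q, rk Y z.2 / q)

/-- the points of the grid on a line -/
noncomputable def on (X Y : Finset ℝ) (l : ℝ × ℝ) : Finset (ℝ × ℝ) :=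
  (X ×ˢ Y).filter fun z => z.1 + l.1 * z.2 = l.2

theorem card_cells (X Y : Finset ℝ) (q r : ℕ) (hX : ∀ x ∈ X, rk X x / q < r)
    (hY : ∀ y ∈ Y, rk Y y / q < r) (l : ℝ × ℝ) (hl : l.1 ≠ 0) :
    ((on X Y l).image (cell q X Y)).card ≤ 2 * r := by
  rcases lt_or_gt_of_ne hl with h | h
  · have : ((on X Y l).image (cell q X Y)).card ≤ (range (2 * r)).card := by
      refine card_le_card_of_injOn (fun c => c.1 + c.2) ?_ ?_
      · intro c hc
        rw [mem_coe, mem_image] at hc
        obtain ⟨z, hz, rfl⟩ := hc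
        unfold on at hz
        rw [mem_filter, mem_product] at hz
        rw [mem_coe, mem_range]
        have h1 := hX _ hz.1.1
        have h2 := hY _ hz.1.2
        show rk X z.1 / q + rk Y z.2 / q < 2 * r
        omega
      · intro c hc c' hc' hcc
        rw [mem_coe, mem_image] at hc hc'
        obtain ⟨z, hz, rfl⟩ := hc
        obtain ⟨w, hw, rfl⟩ := hc'
        unfold on at hz hw
        rw [mem_filter, mem_product] at hz hw
        have hcc : rk X z.1 / q + rk Y z.2 / q = rk X w.1 / q + rk Y w.2 / q := hcc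
        have e : z.1 - w.1 = - l.1 * (z.2 - w.2) := by linarith [hz.2, hw.2]
        rcases le_total z.1 w.1 with h1 | h1
        · have h2 : z.2 ≤ w.2 := by
            by_contra hlt
            push Not at hlt
            nlinarith
          have h3 := Nat.div_le_div_right (c := q) (rk_mono X h1)
          have h4 := Nat.div_le_div_right (c := q) (rk_mono Y h2)
          unfold cell
          rw [Prod.mk.injEq]
          omega
        · have h2 : w.2 ≤ z.2 := by
            by_contra hlt
            push Not at hlt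
            nlinarith
          have h3 := Nat.div_le_div_right (c := q) (rk_mono X h1)
          have h4 := Nat.div_le_div_right (c := q) (rk_mono Y h2)
          unfold cell
          rw [Prod.mk.injEq]
          omega
    simpa using this
  · have : ((on X Y l).image (cell q X Y)).card ≤ (range (2 * r)).card := by
      refine card_le_card_of_injOn (fun c => c.1 + (r - c.2)) ?_ ?_
      · intro c hc
        rw [mem_coe, mem_image] at hc
        obtain ⟨z, hz, rfl⟩ := hc
        unfold on at hz
        rw [mem_filter, mem_product] at hz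
        rw [mem_coe, mem_range]
        have h1 := hX _ hz.1.1
        have h2 := hY _ hz.1.2
        show rk X z.1 / q + (r - rk Y z.2 / q) < 2 * r
        generalize rk X z.1 / q = a at *
        generalize rk Y z.2 / q = b at *
        omega
      · intro c hc c' hc' hcc
        rw [mem_coe, mem_image] at hc hc'
        obtain ⟨z, hz, rfl⟩ := hc
        obtain ⟨w, hw, rfl⟩ := hc'
        unfold on at hz hw
        rw [mem_filter, mem_product] at hz hw
        have hcc : rk X z.1 / q + (r - rk Y z.2 / q) = rk X w.1 / q + (r - rk Y w.2 / q) := hcc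
        have e : z.1 - w.1 = - l.1 * (z.2 - w.2) := by linarith [hz.2, hw.2]
        have k1 := hY _ hz.1.2
        have k2 := hY _ hw.1.2
        rcases le_total z.1 w.1 with h1 | h1
        · have h2 : w.2 ≤ z.2 := by
            by_contra hlt
            push Not at hlt
            nlinarith
          have h3 := Nat.div_le_div_right (c := q) (rk_mono X h1)
          have h4 := Nat.div_le_div_right (c := q) (rk_mono Y h2)
          unfold cell
          rw [Prod.mk.injEq]
          omega
        · have h2 : z.2 ≤ w.2 := by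
            by_contra hlt
            push Not at hlt
            nlinarith
          have h3 := Nat.div_le_div_right (c := q) (rk_mono X h1)
          have h4 := Nat.div_le_div_right (c := q) (rk_mono Y h2)
          unfold cell
          rw [Prod.mk.injEq]
          omega
    simpa using this

/-- a set is at most its number of cells plus its number of pairs of distinct points in a common cell -/
theorem card_le_image_add {α β : Type*} [DecidableEq α] [DecidableEq β] (S : Finset α) (f : α → β) :
    S.card ≤ (S.image f).card + ((S ×ˢ S).filter fun x => x.1 ≠ x.2 ∧ f x.1 = f x.2).card := by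
  classical
  rcases S.eq_empty_or_nonempty with rfl | ⟨z0, hz0⟩
  · simp
  let rep : β → α := fun c => if h : ∃ z ∈ S, f z = c then h.choose else z0
  have hrep : ∀ z ∈ S, rep (f z) ∈ S ∧ f (rep (f z)) = f z := by
    intro z hz
    have h : ∃ w ∈ S, f w = f z := ⟨z, hz, rfl⟩
    have : rep (f z) = h.choose := by
      show (if h : ∃ w ∈ S, f w = f z then h.choose else z0) = _
      rw [dif_pos h]
    rw [this]
    exact h.choose_spec
  have h1 : (S.filter fun z => z = rep (f z)).card ≤ (S.image f).card := by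
    refine card_le_card_of_injOn f ?_ ?_
    · intro z hz
      exact mem_coe.2 (mem_image_of_mem _ (mem_filter.1 (mem_coe.1 hz)).1)
    · intro z hz w hw h
      rw [mem_coe, mem_filter] at hz hw
      rw [hz.2, hw.2, h]
  have h2 : (S.filter fun z => ¬ z = rep (f z)).card ≤
      ((S ×ˢ S).filter fun x => x.1 ≠ x.2 ∧ f x.1 = f x.2).card := by
    refine card_le_card_of_injOn (fun z => (z, rep (f z))) ?_ ?_
    · intro z hz
      rw [mem_coe, mem_filter] at hz
      rw [mem_coe, mem_filter, mem_product]
      exact ⟨⟨hz.1, (hrep z hz.1).1⟩, hz.2, (hrep z hz.1).2.symm⟩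
    · intro z hz w hw h
      exact (Prod.mk.inj h).1
  rw [← card_filter_add_card_filter_not (s := S) (fun z => z = rep (f z))]
  omega

/-- the pairs of distinct points of the grid in a common cell -/
noncomputable def prs (q : ℕ) (X Y : Finset ℝ) : Finset ((ℝ × ℝ) × (ℝ × ℝ)) :=
  ((X ×ˢ Y) ×ˢ (X ×ˢ Y)).filter fun x => x.1 ≠ x.2 ∧ cell q X Y x.1 = cell q X Y x.2

theorem card_prs (q : ℕ) (hq : 0 < q) (X Y : Finset ℝ) :
    (prs q X Y).card ≤ X.card * Y.card * (q * q) := by
  have h1 : prs q X Y ⊆ (X ×ˢ Y).biUnion fun z =>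
      (((X.filter fun x => rk X x / q = rk X z.1 / q) ×ˢ
        (Y.filter fun y => rk Y y / q = rk Y z.2 / q)).image fun w => (z, w)) := by
    intro p hp
    unfold prs at hp
    rw [mem_filter, mem_product] at hp
    rw [mem_biUnion]
    refine ⟨p.1, hp.1.1, ?_⟩
    rw [mem_image]
    refine ⟨p.2, ?_, rfl⟩
    have h2 := mem_product.1 hp.1.2
    have h3 := hp.2.2
    unfold cell at h3
    rw [Prod.mk.injEq] at h3
    rw [mem_product, mem_filter, mem_filter]
    exact ⟨⟨h2.1, h3.1.symm⟩, h2.2, h3.2.symm⟩
  refine (card_le_card h1).trans (card_biUnion_le.trans ?_)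
  have : ∀ z ∈ X ×ˢ Y, ((((X.filter fun x => rk X x / q = rk X z.1 / q) ×ˢ
        (Y.filter fun y => rk Y y / q = rk Y z.2 / q)).image fun w => (z, w))).card ≤ q * q := by
    intro z _
    refine card_image_le.trans ?_
    rw [card_product]
    exact Nat.mul_le_mul (card_block X q _ hq) (card_block Y q _ hq)
  refine (sum_le_sum this).trans ?_
  rw [sum_const, card_product, smul_eq_mul]

theorem sum_prs (q : ℕ) (X Y : Finset ℝ) (L : Finset (ℝ × ℝ)) :
    ∑ l ∈ L, ((on X Y l ×ˢ on X Y l).filter fun x => x.1 ≠ x.2 ∧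
      cell q X Y x.1 = cell q X Y x.2).card ≤ (prs q X Y).card := by
  rw [← card_biUnion]
  · refine card_le_card ?_
    intro p hp
    rw [mem_biUnion] at hp
    obtain ⟨l, _, hp⟩ := hp
    rw [mem_filter, mem_product] at hp
    unfold prs
    rw [mem_filter, mem_product]
    refine ⟨⟨?_, ?_⟩, hp.2⟩
    · have := hp.1.1
      unfold on at this
      exact (mem_filter.1 this).1
    · have := hp.1.2
      unfold on at this
      exact (mem_filter.1 this).1
  · intro l hl l' hl' hne
    rw [Function.onFun, disjoint_left]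
    intro p hp hp'
    rw [mem_filter, mem_product] at hp hp'
    unfold on at hp hp'
    rw [mem_filter, mem_filter] at hp hp'
    have a1 := hp.1.1.2
    have a2 := hp.1.2.2
    have a3 := hp'.1.1.2
    have a4 := hp'.1.2.2
    apply hne
    have hy : p.1.2 ≠ p.2.2 := by
      intro h
      rw [h] at a1
      have : p.1.1 = p.2.1 := by linarith
      exact hp.2.1 (Prod.ext this h)
    have hm : (l.1 - l'.1) * (p.1.2 - p.2.2) = 0 := by
      have : l.1 * (p.1.2 - p.2.2) = l'.1 * (p.1.2 - p.2.2) := by linarith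
      linarith
    have h1 : l.1 = l'.1 := by
      rcases mul_eq_zero.1 hm with h | h
      · linarith
      · exact absurd (by linarith) hy
    refine Prod.ext h1 ?_
    rw [← a1, ← a3, h1]

theorem st (n r : ℕ) (hr : 1 ≤ r) (hrn : r ≤ n) (X Y : Finset ℝ) (hX : X.card ≤ n) (hY : Y.card ≤ n)
    (L : Finset (ℝ × ℝ)) (hL : ∀ l ∈ L, l.1 ≠ 0) :
    (∑ l ∈ L, ((on X Y l).card : ℝ)) ≤ 2 * r * L.card + 4 * (n : ℝ) ^ 4 / (r : ℝ) ^ 2 := by
  set q : ℕ := (n + r - 1) / r with hqdef
  have hrr : 0 < r := hr
  have hq0 : 0 < q := by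
    rw [hqdef]
    exact Nat.div_pos (by omega) hrr
  have hq1 : n ≤ r * q := by
    have h1 := Nat.div_add_mod (n + r - 1) r
    have h2 := Nat.mod_lt (n + r - 1) hrr
    rw [← hqdef] at h1
    omega
  have hq2 : r * q ≤ 2 * n := by
    have h1 := Nat.div_add_mod (n + r - 1) r
    rw [← hqdef] at h1
    omega
  have hbX : ∀ x ∈ X, rk X x / q < r := by
    intro x hx
    rw [Nat.div_lt_iff_lt_mul hq0]
    exact (rk_lt_card X hx).trans_le (hX.trans hq1)
  have hbY : ∀ x ∈ Y, rk Y x / q < r := by
    intro x hx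
    rw [Nat.div_lt_iff_lt_mul hq0]
    exact (rk_lt_card Y hx).trans_le (hY.trans hq1)
  have h1 : ∑ l ∈ L, (on X Y l).card ≤ ∑ l ∈ L, (2 * r + ((on X Y l ×ˢ on X Y l).filter fun x =>
      x.1 ≠ x.2 ∧ cell q X Y x.1 = cell q X Y x.2).card) := by
    refine sum_le_sum fun l hl => ?_
    refine (card_le_image_add (on X Y l) (cell q X Y)).trans ?_
    exact Nat.add_le_add_right (card_cells X Y q r hbX hbY l (hL l hl)) _
  rw [sum_add_distrib, sum_const, smul_eq_mul] at h1
  have h2 := sum_prs q X Y L
  have h3 := card_prs q hq0 X Y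
  have h4 : X.card * Y.card * (q * q) ≤ n * n * (q * q) :=
    Nat.mul_le_mul_right _ (Nat.mul_le_mul hX hY)
  have h5 : ∑ l ∈ L, (on X Y l).card ≤ L.card * (2 * r) + n * n * (q * q) := by omega
  have h6 : (∑ l ∈ L, ((on X Y l).card : ℝ)) ≤ (L.card : ℝ) * (2 * r) + (n : ℝ) * n * ((q : ℝ) * q) := by
    exact_mod_cast h5
  have hrR : (0 : ℝ) < r := by exact_mod_cast hrr
  have h7 : (q : ℝ) ≤ 2 * n / r := by
    rw [le_div_iff₀ hrR]
    have : (r : ℝ) * q ≤ 2 * n := by exact_mod_cast hq2
    linarith
  have h8 : (n : ℝ) * n * ((q : ℝ) * q) ≤ 4 * (n : ℝ) ^ 4 / (r : ℝ) ^ 2 := by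
    calc (n : ℝ) * n * ((q : ℝ) * q) ≤ (n : ℝ) * n * ((2 * n / r) * (2 * n / r)) := by gcongr
      _ = 4 * (n : ℝ) ^ 4 / (r : ℝ) ^ 2 := by
        field_simp
        ring
  linarith

end SdG
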