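import Pool.Agent.Lib.SdG.Defs
import Pool.Agent.Lib.CSid.Del

/-!
# Selection of Sidon subsets by random colouring

Lemma 1 of the paper proof.
-/

set_option autoImplicit false

namespace SdG

open Finset

namespace SelAux

/-- lower halves of the representations of `s` -/
noncomputable def low (A : Finset ℝ) (s : ℝ) : Finset ℝ := A.filter fun a => s - a ∈ A ∧ a ≤ s / 2

/-- vertex set of a configuration -/
noncomputable def W (s : ℝ) (T : Finset ℝ) : Finset ℝ := T ∪ T.image fun a => s - a

theorem low_card_le (A : Finset ℝ) (s : ℝ) : (low A s).card ≤ rp A s := by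
  refine card_le_card fun a ha => ?_
  unfold low at ha
  rw [mem_filter] at ha ⊢
  exact ⟨ha.1, ha.2.1⟩

theorem card_W (s : ℝ) (T : Finset ℝ) (hT : ∀ a ∈ T, a ≤ s / 2) :
    2 * T.card ≤ (W s T).card + (if s / 2 ∈ T then 1 else 0) := by
  classical
  have hinj : (T.image fun a => s - a).card = T.card := by
    refine card_image_of_injective T fun a b hab => ?_
    have : s - a = s - b := hab
    linarith
  have hinter : (T ∩ T.image fun a => s - a).card ≤ (if s / 2 ∈ T then 1 else 0) := by
    split_ifs with h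
    · rw [card_le_one]
      have key : ∀ a ∈ T ∩ T.image (fun a => s - a), a = s / 2 := by
        intro a ha
        rw [mem_inter, mem_image] at ha
        obtain ⟨h1, b, hb, h2⟩ := ha
        have h3 := hT a h1
        have h4 := hT b hb
        linarith
      intro a ha b hb
      rw [key a ha, key b hb]
    · rw [Nat.le_zero, card_eq_zero, eq_empty_iff_forall_notMem]
      intro a ha
      rw [mem_inter, mem_image] at ha
      obtain ⟨h1, b, hb, h2⟩ := ha
      have h3 := hT a h1
      have h4 := hT b hb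
      have h5 : a = s / 2 := by linarith
      rw [h5] at h1
      exact h h1
  have h := card_union_add_card_inter T (T.image fun a => s - a)
  unfold W
  omega

theorem W_subset {A T : Finset ℝ} {s : ℝ} (hT : T ⊆ low A s) : W s T ⊆ A := by
  intro a ha
  unfold W at ha
  rw [mem_union, mem_image] at ha
  rcases ha with ha | ⟨b, hb, rfl⟩
  · have := hT ha
    unfold low at this
    exact (mem_filter.1 this).1
  · have := hT hb
    unfold low at this
    exact (mem_filter.1 this).2.1

/-- the configurations -/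
noncomputable def conf (g : ℕ) (A : Finset ℝ) : Finset (Finset ℝ) :=
  (sums A).biUnion fun s => ((low A s).powersetCard (g + 1)).image (W s)

theorem pow_aux (r m : ℝ) (hr : 0 ≤ r) (hm : 0 < m) (g : ℕ) :
    r ^ g / m ^ (2 * g) ≤ r ^ (g + 1) / m ^ (2 * g + 1) + 1 / m ^ g := by
  rcases le_total m r with h | h
  · have h1 : r ^ g / m ^ (2 * g) ≤ r ^ (g + 1) / m ^ (2 * g + 1) := by
      rw [div_le_div_iff₀ (by positivity) (by positivity), pow_succ, pow_succ]
      have : 0 ≤ r ^ g * m ^ (2 * g) := by positivity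
      nlinarith
    have h2 : 0 ≤ 1 / m ^ g := by positivity
    linarith
  · have h1 : r ^ g / m ^ (2 * g) ≤ 1 / m ^ g := by
      rw [div_le_div_iff₀ (by positivity) (by positivity), one_mul, two_mul, pow_add]
      exact mul_le_mul_of_nonneg_right (pow_le_pow_left₀ hr h g) (by positivity)
    have h2 : 0 ≤ r ^ (g + 1) / m ^ (2 * g + 1) := by positivity
    linarith

/-- sum over the configurations of one `s` -/
theorem sum_s (g : ℕ) (A : Finset ℝ) (s : ℝ) (m : ℝ) (hm : 1 ≤ m) :
    ∑ T ∈ (low A s).powersetCard (g + 1), 1 / m ^ (W s T).card ≤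
      (rp A s : ℝ) ^ (g + 1) / m ^ (2 * g + 2) + (if s / 2 ∈ A then (rp A s : ℝ) ^ g / m ^ (2 * g + 1) else 0) := by
  classical
  have hm0 : 0 < m := by linarith
  have hlow : ∀ T ∈ (low A s).powersetCard (g + 1), ∀ a ∈ T, a ≤ s / 2 := by
    intro T hT a ha
    have := (mem_powersetCard.1 hT).1 ha
    unfold low at this
    exact (mem_filter.1 this).2.2
  have hr : ((low A s).card : ℝ) ≤ rp A s := by exact_mod_cast low_card_le A s
  rw [← sum_filter_add_sum_filter_not _ (fun T => s / 2 ∈ T), add_comm]
  refine add_le_add ?_ ?_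
  · -- no midpoint
    have h1 : ∀ T ∈ ((low A s).powersetCard (g + 1)).filter (fun T => ¬ s / 2 ∈ T),
        1 / m ^ (W s T).card ≤ 1 / m ^ (2 * g + 2) := by
      intro T hT
      rw [mem_filter] at hT
      have h2 := card_W s T (hlow T hT.1)
      rw [if_neg hT.2, (mem_powersetCard.1 hT.1).2] at h2
      refine one_div_le_one_div_of_le (by positivity) (pow_le_pow_right₀ hm (by omega))
    refine (sum_le_sum h1).trans ?_
    rw [sum_const, nsmul_eq_mul, mul_one_div]
    refine div_le_div_of_nonneg_right ?_ (by positivity)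
    have h2 : (((low A s).powersetCard (g + 1)).filter (fun T => ¬ s / 2 ∈ T)).card ≤
        (low A s).card ^ (g + 1) := by
      refine (card_filter_le _ _).trans ?_
      rw [card_powersetCard]
      exact Nat.choose_le_pow _ _
    calc ((((low A s).powersetCard (g + 1)).filter (fun T => ¬ s / 2 ∈ T)).card : ℝ)
        ≤ ((low A s).card : ℝ) ^ (g + 1) := by exact_mod_cast h2
      _ ≤ (rp A s : ℝ) ^ (g + 1) := pow_le_pow_left₀ (by positivity) hr _
  · -- midpoint
    split_ifs with hs
    · have h1 : ∀ T ∈ ((low A s).powersetCard (g + 1)).filter (fun T => s / 2 ∈ T),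
          1 / m ^ (W s T).card ≤ 1 / m ^ (2 * g + 1) := by
        intro T hT
        rw [mem_filter] at hT
        have h2 := card_W s T (hlow T hT.1)
        rw [if_pos hT.2, (mem_powersetCard.1 hT.1).2] at h2
        refine one_div_le_one_div_of_le (by positivity) (pow_le_pow_right₀ hm (by omega))
      refine (sum_le_sum h1).trans ?_
      rw [sum_const, nsmul_eq_mul, mul_one_div]
      refine div_le_div_of_nonneg_right ?_ (by positivity)
      have h2 : (((low A s).powersetCard (g + 1)).filter (fun T => s / 2 ∈ T)).card ≤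
          (low A s).card ^ g := by
        have h3 : (((low A s).powersetCard (g + 1)).filter (fun T => s / 2 ∈ T)).card ≤
            ((low A s).powersetCard g).card := by
          refine card_le_card_of_injOn (fun T => T.erase (s / 2)) ?_ ?_
          · intro T hT
            rw [mem_coe, mem_filter] at hT
            rw [mem_coe, mem_powersetCard]
            refine ⟨(erase_subset _ _).trans (mem_powersetCard.1 hT.1).1, ?_⟩
            rw [card_erase_of_mem hT.2, (mem_powersetCard.1 hT.1).2]
            rfl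
          · intro T hT T' hT' h
            rw [mem_coe, mem_filter] at hT hT'
            have h : T.erase (s / 2) = T'.erase (s / 2) := h
            rw [← insert_erase hT.2, ← insert_erase hT'.2, h]
        refine h3.trans ?_
        rw [card_powersetCard]
        exact Nat.choose_le_pow _ _
      calc ((((low A s).powersetCard (g + 1)).filter (fun T => s / 2 ∈ T)).card : ℝ)
          ≤ ((low A s).card : ℝ) ^ g := by exact_mod_cast h2
        _ ≤ (rp A s : ℝ) ^ g := pow_le_pow_left₀ (by positivity) hr _
    · have h1 : ((low A s).powersetCard (g + 1)).filter (fun T => s / 2 ∈ T) = ∅ := by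
        rw [filter_eq_empty_iff]
        intro T hT h2
        have := (mem_powersetCard.1 hT).1 h2
        unfold low at this
        exact hs (mem_filter.1 this).1
      rw [h1, sum_empty]

theorem sum_image_le' {α β : Type*} [DecidableEq β] (s : Finset α) (f : α → β) (h : β → ℝ)
    (hh : ∀ b, 0 ≤ h b) : ∑ b ∈ s.image f, h b ≤ ∑ a ∈ s, h (f a) := by
  classical
  rw [← sum_fiberwise_of_maps_to (g := f) (fun a ha => mem_image_of_mem f ha)]
  refine sum_le_sum fun b hb => ?_
  obtain ⟨a, ha, rfl⟩ := mem_image.1 hb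
  exact single_le_sum (f := fun a' => h (f a')) (fun _ _ => hh _) (mem_filter.2 ⟨ha, rfl⟩)

theorem sum_biUnion_le {α β : Type*} [DecidableEq β] (s : Finset α) (t : α → Finset β) (h : β → ℝ)
    (hh : ∀ b, 0 ≤ h b) : ∑ b ∈ s.biUnion t, h b ≤ ∑ a ∈ s, ∑ b ∈ t a, h b := by
  classical
  induction s using Finset.induction_on with
  | empty => simp
  | insert a s ha ih =>
    rw [biUnion_insert, sum_insert ha]
    have h1 : ∑ b ∈ t a ∪ s.biUnion t, h b ≤ ∑ b ∈ t a, h b + ∑ b ∈ s.biUnion t, h b := by
      rw [← sum_union_inter]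
      have : 0 ≤ ∑ b ∈ t a ∩ s.biUnion t, h b := sum_nonneg fun _ _ => hh _
      linarith
    linarith

theorem card_mid (A : Finset ℝ) : (((sums A).filter fun s => s / 2 ∈ A).card : ℝ) ≤ A.card := by
  have : ((sums A).filter fun s => s / 2 ∈ A).card ≤ A.card := by
    refine card_le_card_of_injOn (fun s => s / 2) ?_ ?_
    · intro s hs
      rw [mem_coe, mem_filter] at hs
      exact hs.2
    · intro s _ s' _ h
      have h : s / 2 = s' / 2 := h
      linarith
  exact_mod_cast this

end SelAux

open SelAux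

theorem sel (g k : ℕ) (hg : 2 ≤ g) (hk : 2 ≤ k) (A : Finset ℝ)
    (h : 8 * Ek (g + 1) A ≤ A.card * (k : ℝ) ^ (2 * g + 1)) :
    ∃ B ⊆ A, AddSid g B ∧ (A.card : ℝ) ≤ 2 * k * B.card := by
  classical
  have hk0 : (0 : ℝ) < k := by exact_mod_cast (by omega : 0 < k)
  have hk1 : (1 : ℝ) ≤ k := by exact_mod_cast (by omega : 1 ≤ k)
  obtain ⟨B, hBA, hB, hcard⟩ := Pool.Agent.Lib.CSid.exists_avoid_plain k (by omega) A (conf g A)
    (by
      intro T hT
      unfold conf at hT
      rw [mem_biUnion] at hT
      obtain ⟨s, _, hT⟩ := hT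
      rw [mem_image] at hT
      obtain ⟨T', hT', rfl⟩ := hT
      have h1 : T'.Nonempty := by
        rw [← card_pos, (mem_powersetCard.1 hT').2]
        omega
      unfold W
      exact h1.mono subset_union_left)
    (by
      intro T hT
      unfold conf at hT
      rw [mem_biUnion] at hT
      obtain ⟨s, _, hT⟩ := hT
      rw [mem_image] at hT
      obtain ⟨T', hT', rfl⟩ := hT
      exact W_subset (mem_powersetCard.1 hT').1)
  refine ⟨B, hBA, ?_, ?_⟩
  · -- Sidon
    intro s
    by_contra hlt
    push Not at hlt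
    have h1 : ((B ×ˢ B).filter fun x => x.1 ≤ x.2 ∧ x.1 + x.2 = s).card ≤ (low B s).card := by
      refine card_le_card_of_injOn (fun x => x.1) ?_ ?_
      · intro x hx
        rw [mem_coe, mem_filter, mem_product] at hx
        obtain ⟨⟨h1, h2⟩, h3, h4⟩ := hx
        unfold low
        rw [mem_coe, mem_filter]
        have e : s - x.1 = x.2 := by linarith
        refine ⟨h1, by rw [e]; exact h2, by linarith⟩
      · intro x hx y hy hxy
        rw [mem_coe, mem_filter] at hx hy
        have hxy : x.1 = y.1 := hxy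
        refine Prod.ext hxy ?_
        linarith [hx.2.2, hy.2.2]
    obtain ⟨T, hT, hTc⟩ := exists_subset_card_eq (s := low B s) (n := g + 1) (by omega)
    have hTA : T ⊆ low A s := by
      intro a ha
      have := hT ha
      unfold low at this ⊢
      rw [mem_filter] at this ⊢
      exact ⟨hBA this.1, hBA this.2.1, this.2.2⟩
    obtain ⟨a, ha⟩ : T.Nonempty := by
      rw [← card_pos]
      omega
    refine hB (W s T) ?_ (W_subset hT)
    unfold conf
    rw [mem_biUnion]
    refine ⟨s, ?_, mem_image_of_mem _ (mem_powersetCard.2 ⟨hTA, hTc⟩)⟩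
    have := hTA ha
    unfold low at this
    rw [mem_filter] at this
    unfold sums
    rw [mem_image]
    exact ⟨(a, s - a), mem_product.2 ⟨this.1, this.2.1⟩, by ring⟩
  · -- size
    have h1 : ∑ T ∈ conf g A, 1 / (k : ℝ) ^ T.card ≤
        ∑ s ∈ sums A, ((rp A s : ℝ) ^ (g + 1) / (k : ℝ) ^ (2 * g + 2) +
          (if s / 2 ∈ A then (rp A s : ℝ) ^ g / (k : ℝ) ^ (2 * g + 1) else 0)) := by
      unfold conf
      refine (sum_biUnion_le _ _ (fun T : Finset ℝ => 1 / (k : ℝ) ^ T.card) fun _ => by positivity).trans ?_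
      refine sum_le_sum fun s _ => ?_
      refine (sum_image_le' _ _ (fun T : Finset ℝ => 1 / (k : ℝ) ^ T.card) fun _ => by positivity).trans ?_
      exact sum_s g A s k hk1
    have h2 : (k : ℝ) * ∑ s ∈ sums A, ((rp A s : ℝ) ^ (g + 1) / (k : ℝ) ^ (2 * g + 2) +
          (if s / 2 ∈ A then (rp A s : ℝ) ^ g / (k : ℝ) ^ (2 * g + 1) else 0)) ≤
        ∑ s ∈ sums A, ((rp A s : ℝ) ^ (g + 1) / (k : ℝ) ^ (2 * g + 1) +
          (if s / 2 ∈ A then (rp A s : ℝ) ^ (g + 1) / (k : ℝ) ^ (2 * g + 1) + 1 / (k : ℝ) ^ g else 0)) := by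
      rw [mul_sum]
      refine sum_le_sum fun s _ => ?_
      rw [mul_add]
      refine add_le_add ?_ ?_
      · refine le_of_eq ?_
        rw [pow_succ (k : ℝ) (2 * g + 1)]
        field_simp
      · split_ifs
        · refine le_trans (le_of_eq ?_) (pow_aux (rp A s) k (Nat.cast_nonneg _) hk0 g)
          rw [pow_succ (k : ℝ) (2 * g)]
          field_simp
        · simp
    have h3 : ∑ s ∈ sums A, ((rp A s : ℝ) ^ (g + 1) / (k : ℝ) ^ (2 * g + 1) +
          (if s / 2 ∈ A then (rp A s : ℝ) ^ (g + 1) / (k : ℝ) ^ (2 * g + 1) + 1 / (k : ℝ) ^ g else 0)) ≤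
        (A.card : ℝ) / 2 := by
      have h4 : ∑ s ∈ sums A, (rp A s : ℝ) ^ (g + 1) / (k : ℝ) ^ (2 * g + 1) ≤ A.card / 8 := by
        rw [← sum_div]
        have : ∑ s ∈ sums A, (rp A s : ℝ) ^ (g + 1) = Ek (g + 1) A := rfl
        rw [this, div_le_iff₀ (by positivity)]
        linarith
      have h5 : ∑ s ∈ sums A, (if s / 2 ∈ A then (rp A s : ℝ) ^ (g + 1) / (k : ℝ) ^ (2 * g + 1) + 1 / (k : ℝ) ^ g else 0) ≤
          A.card / 8 + A.card / 4 := by
        rw [← sum_filter, sum_add_distrib]
        refine add_le_add ?_ ?_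
        · refine le_trans (sum_le_sum_of_subset_of_nonneg (filter_subset _ _) fun _ _ _ => by positivity) h4
        · rw [sum_const, nsmul_eq_mul, mul_one_div]
          have h6 : (4 : ℝ) ≤ (k : ℝ) ^ g := by
            have h7 : (2 : ℝ) ≤ k := by exact_mod_cast hk
            calc (4 : ℝ) = 2 ^ 2 := by norm_num
              _ ≤ (k : ℝ) ^ 2 := by gcongr
              _ ≤ (k : ℝ) ^ g := pow_le_pow_right₀ hk1 hg
          calc (((sums A).filter fun s => s / 2 ∈ A).card : ℝ) / (k : ℝ) ^ g
              ≤ A.card / (k : ℝ) ^ g := div_le_div_of_nonneg_right (card_mid A) (by positivity)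
            _ ≤ A.card / 4 := div_le_div_of_nonneg_left (Nat.cast_nonneg _) (by norm_num) h6
      rw [sum_add_distrib]
      linarith
    have h4 : (k : ℝ) * ∑ T ∈ conf g A, 1 / (k : ℝ) ^ T.card ≤ A.card / 2 :=
      (mul_le_mul_of_nonneg_left h1 hk0.le).trans (h2.trans h3)
    have h5 : (k : ℝ) * ((A.card : ℝ) / k) = A.card := by field_simp
    have h6 := mul_le_mul_of_nonneg_left hcard hk0.le
    rw [mul_sub, h5] at h6
    linarith

end SdG
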