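import Pool.Agent.Lib.SdG.Direct

/-!
# Two translations

MP_c028f8_co, project SdG (owner helper98); Lemma 4 of /team-store/c028f8_g32.md.
-/

set_option autoImplicit false

namespace SdG

open Finset

/-- the multiplicity of a pair of translations -/
noncomputable def mult (A B : Finset ℝ) (lam : ℝ) (w : ℝ × ℝ) : ℕ :=
  (B.filter fun a => w.1 - a ∈ A ∧ w.2 - a / lam ∈ A).card

theorem mult_le (A B : Finset ℝ) (lam : ℝ) (w : ℝ × ℝ) : mult A B lam w ≤ B.card := card_filter_le _ _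

theorem sum_mult (A A1 P B : Finset ℝ) (D : ℝ) (hD : 0 < D) (lam : ℝ)
    (hdeg : ∀ a ∈ A1, D ≤ ((P.filter fun s => s - a ∈ A).card : ℝ))
    (hB : ∀ a ∈ B, a ∈ A1 ∧ a / lam ∈ A1) :
    (B.card : ℝ) * D ^ 2 ≤ ∑ w ∈ P ×ˢ P, (mult A B lam w : ℝ) := by
  have h1 : ∑ w ∈ P ×ˢ P, (mult A B lam w : ℝ) =
      ∑ a ∈ B, ((P.filter fun s => s - a ∈ A).card : ℝ) * ((P.filter fun s => s - a / lam ∈ A).card : ℝ) := by
    have e1 : ∀ w, (mult A B lam w : ℝ) = ∑ a ∈ B, if (w.1 - a ∈ A ∧ w.2 - a / lam ∈ A) then (1 : ℝ) else 0 := by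
      intro w
      unfold mult
      rw [card_filter]
      push_cast
      rfl
    have e2 : ∀ a, ((P.filter fun s => s - a ∈ A).card : ℝ) * ((P.filter fun s => s - a / lam ∈ A).card : ℝ) =
        ∑ w ∈ P ×ˢ P, if (w.1 - a ∈ A ∧ w.2 - a / lam ∈ A) then (1 : ℝ) else 0 := by
      intro a
      rw [← Nat.cast_mul, ← card_product]
      have : (P.filter fun s => s - a ∈ A) ×ˢ (P.filter fun s => s - a / lam ∈ A) =
          (P ×ˢ P).filter fun w => w.1 - a ∈ A ∧ w.2 - a / lam ∈ A := by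
        ext w
        simp only [mem_product, mem_filter]
        tauto
      rw [this, card_filter]
      push_cast
      rfl
    simp only [e1, e2]
    exact sum_comm
  rw [h1]
  calc (B.card : ℝ) * D ^ 2 = ∑ a ∈ B, D ^ 2 := by rw [sum_const, nsmul_eq_mul]
    _ ≤ _ := by
      refine sum_le_sum fun a ha => ?_
      rw [sq]
      exact mul_le_mul (hdeg a (hB a ha).1) (hdeg _ (hB a ha).2) hD.le (Nat.cast_nonneg _)

/-- many pairs of translations are good -/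
theorem good_pairs (A A1 P B : Finset ℝ) (D : ℝ) (hD : 0 < D) (lam : ℝ) (rho : ℕ) (h1 : 1 ≤ rho)
    (hdeg : ∀ a ∈ A1, D ≤ ((P.filter fun s => s - a ∈ A).card : ℝ))
    (hB : ∀ a ∈ B, a ∈ A1 ∧ a / lam ∈ A1) (hBc : B.card = rho) (hP : 0 < P.card) (kap : ℝ)
    (hk : kap * (2 * (P.card : ℝ) ^ 2) = rho * D ^ 2) :
    D ^ 2 / 2 ≤ (((P ×ˢ P).filter fun w => kap ≤ mult A B lam w).card : ℝ) := by
  have h2 := sum_mult A A1 P B D hD lam hdeg hB
  have hrho : (0 : ℝ) < rho := by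
    have : (1 : ℝ) ≤ rho := by exact_mod_cast h1
    linarith
  have hPR : (0 : ℝ) < P.card := by exact_mod_cast hP
  rw [hBc, ← sum_filter_add_sum_filter_not (P ×ˢ P) (fun w => kap ≤ (mult A B lam w : ℝ))] at h2
  have hk0 : 0 ≤ kap := by
    by_contra hlt
    push Not at hlt
    have h3 : kap * (2 * (P.card : ℝ) ^ 2) < 0 := mul_neg_of_neg_of_pos hlt (by positivity)
    have h4 : 0 < (rho : ℝ) * D ^ 2 := by positivity
    linarith
  have h3 : ∑ w ∈ (P ×ˢ P).filter (fun w => kap ≤ (mult A B lam w : ℝ)), (mult A B lam w : ℝ) ≤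
      (((P ×ˢ P).filter fun w => kap ≤ mult A B lam w).card : ℝ) * rho := by
    rw [← nsmul_eq_mul, ← sum_const]
    refine sum_le_sum fun w _ => ?_
    rw [← hBc]
    exact_mod_cast mult_le A B lam w
  have h4 : ∑ w ∈ (P ×ˢ P).filter (fun w => ¬ kap ≤ (mult A B lam w : ℝ)), (mult A B lam w : ℝ) ≤
      (P.card : ℝ) ^ 2 * kap := by
    calc ∑ w ∈ (P ×ˢ P).filter (fun w => ¬ kap ≤ (mult A B lam w : ℝ)), (mult A B lam w : ℝ)
        ≤ ∑ w ∈ (P ×ˢ P).filter (fun w => ¬ kap ≤ (mult A B lam w : ℝ)), kap := by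
          refine sum_le_sum fun w hw => ?_
          exact (not_le.1 (mem_filter.1 hw).2).le
      _ = (((P ×ˢ P).filter fun w => ¬ kap ≤ (mult A B lam w : ℝ)).card : ℝ) * kap := by
          rw [sum_const, nsmul_eq_mul]
      _ ≤ ((P ×ˢ P).card : ℝ) * kap := by
          refine mul_le_mul_of_nonneg_right ?_ hk0
          exact_mod_cast card_filter_le _ _
      _ = _ := by
          rw [card_product]
          push_cast
          ring
  have h5 : (rho : ℝ) * (D ^ 2 / 2) ≤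
      (rho : ℝ) * (((P ×ˢ P).filter fun w => kap ≤ mult A B lam w).card : ℝ) := by
    linarith
  exact le_of_mul_le_mul_left h5 hrho

/-- the lines of the good pairs -/
noncomputable def glines (A P : Finset ℝ) (Bf : ℝ → Finset ℝ) (kap : ℝ) (L : Finset ℝ) : Finset (ℝ × ℝ) :=
  L.biUnion fun lam => ((P ×ˢ P).filter fun w => kap ≤ mult A (Bf lam) lam w).image
    fun w => (-lam, w.1 - lam * w.2)

theorem glines_rich (A P : Finset ℝ) (Bf : ℝ → Finset ℝ) (kap : ℝ) (L : Finset ℝ)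
    (hL : ∀ lam ∈ L, 0 < lam) (l : ℝ × ℝ) (hl : l ∈ glines A P Bf kap L) :
    kap ≤ (on A A l).card := by
  unfold glines at hl
  rw [mem_biUnion] at hl
  obtain ⟨lam, hlam, hl⟩ := hl
  rw [mem_image] at hl
  obtain ⟨w, hw, rfl⟩ := hl
  rw [mem_filter] at hw
  refine hw.2.trans ?_
  have h0 := (hL lam hlam).ne'
  have : mult A (Bf lam) lam w ≤ (on A A (-lam, w.1 - lam * w.2)).card := by
    unfold mult
    refine card_le_card_of_injOn (fun a => (w.1 - a, w.2 - a / lam)) ?_ ?_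
    · intro a ha
      rw [mem_coe, mem_filter] at ha
      unfold on
      rw [mem_coe, mem_filter, mem_product]
      refine ⟨ha.2, ?_⟩
      show w.1 - a + -lam * (w.2 - a / lam) = w.1 - lam * w.2
      field_simp
      ring
    · intro a _ b _ h
      have := (Prod.mk.inj h).1
      linarith
  exact_mod_cast this

theorem glines_inc (A P : Finset ℝ) (Bf : ℝ → Finset ℝ) (kap : ℝ) (L : Finset ℝ) :
    ∑ lam ∈ L, ((P ×ˢ P).filter fun w => kap ≤ mult A (Bf lam) lam w).card ≤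
      ∑ l ∈ glines A P Bf kap L, (on P P l).card := by
  rw [← card_sigma, ← card_sigma]
  refine card_le_card_of_injOn (fun x => (⟨(-x.1, x.2.1 - x.1 * x.2.2), x.2⟩ : Σ _ : ℝ × ℝ, ℝ × ℝ)) ?_ ?_
  · intro x hx
    rw [mem_coe, mem_sigma] at hx
    rw [mem_coe, mem_sigma]
    refine ⟨?_, ?_⟩
    · unfold glines
      rw [mem_biUnion]
      exact ⟨x.1, hx.1, mem_image_of_mem _ hx.2⟩
    · unfold on
      rw [mem_filter]
      refine ⟨(mem_filter.1 hx.2).1, ?_⟩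
      show x.2.1 + -x.1 * x.2.2 = x.2.1 - x.1 * x.2.2
      ring
  · rintro ⟨x1, x2⟩ _ ⟨y1, y2⟩ _ h
    simp only [Sigma.mk.injEq, Prod.mk.injEq, neg_inj, heq_eq_eq] at h
    obtain ⟨⟨h1, _⟩, h2⟩ := h
    subst h1 h2
    rfl

theorem two (A A1 P : Finset ℝ) (hA1 : A1 ⊆ A) (hpos : ∀ a ∈ A, 0 < a) (D : ℝ) (hD : 0 < D)
    (hdeg : ∀ a ∈ A1, D ≤ ((P.filter fun s => s - a ∈ A).card : ℝ))
    (rho : ℕ) (h1 : 1 ≤ rho) (L : Finset ℝ) (hLpos : ∀ l ∈ L, 0 < l) (hL : ∀ l ∈ L, rho ≤ rr A1 l) :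
    (L.card : ℝ) * (rho : ℝ) ^ 3 * D ^ 8 ≤ 2 ^ 15 * (A.card : ℝ) ^ 4 * (P.card : ℝ) ^ 6 ∨
    (L.card : ℝ) ^ 3 * (rho : ℝ) ^ 6 * D ^ 18 ≤ 2 ^ 36 * (A.card : ℝ) ^ 8 * (P.card : ℝ) ^ 16 := by
  rcases L.eq_empty_or_nonempty with rfl | ⟨l0, hl0⟩
  · left
    simp only [card_empty, Nat.cast_zero, zero_mul]
    positivity
  have hrho : (1 : ℝ) ≤ rho := by exact_mod_cast h1
  have hl0r := hL l0 hl0
  unfold rr at hl0r
  obtain ⟨a0, ha0⟩ : (A1.filter fun a => a / l0 ∈ A1).Nonempty := by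
    rw [← card_pos]
    omega
  have ha0A : a0 ∈ A1 := (mem_filter.1 ha0).1
  have hDN : D ≤ P.card := (hdeg a0 ha0A).trans (by exact_mod_cast card_filter_le _ _)
  have hDm : D ≤ A.card := (hdeg a0 ha0A).trans (by exact_mod_cast deg_le_card A P a0)
  have hN : (0 : ℝ) < P.card := by linarith
  have hm : (0 : ℝ) < A.card := by linarith
  have hNn : 0 < P.card := by exact_mod_cast hN
  have hmn : 0 < A.card := by exact_mod_cast hm
  have hN1 : (1 : ℝ) ≤ P.card := by exact_mod_cast hNn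
  have hm1 : (1 : ℝ) ≤ A.card := by exact_mod_cast hmn
  have hrm : (rho : ℝ) ≤ A.card := by
    have h1 := hl0r.trans ((card_filter_le _ _).trans (card_le_card hA1))
    exact_mod_cast h1
  have hLr : (L.card : ℝ) * rho ≤ (A.card : ℝ) ^ 2 := by
    have h2 : (L.sigma fun l => A1.filter fun a => a / l ∈ A1).card ≤ (A ×ˢ A).card := by
      refine card_le_card_of_injOn (fun x => (x.2, x.2 / x.1)) ?_ ?_
      · intro x hx
        rw [mem_coe, mem_sigma, mem_filter] at hx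
        rw [mem_coe, mem_product]
        exact ⟨hA1 hx.2.1, hA1 hx.2.2⟩
      · intro x hx y hy h
        rw [mem_coe, mem_sigma, mem_filter] at hx hy
        have hxy := Prod.mk.inj h
        have h3 : x.2 = y.2 := hxy.1
        have h4 : x.2 / x.1 = y.2 / y.1 := hxy.2
        rw [h3] at h4
        have h5 := (hpos _ (hA1 hy.2.1)).ne'
        have h6 := (hLpos _ hx.1).ne'
        have h7 := (hLpos _ hy.1).ne'
        have h8 : x.1 = y.1 := by
          field_simp at h4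
          exact h4.symm
        rcases x with ⟨x1, x2⟩
        rcases y with ⟨y1, y2⟩
        simp only at h3 h8
        subst h3 h8
        rfl
    rw [card_sigma, card_product] at h2
    have h3 : L.card * rho ≤ A.card * A.card := by
      refine le_trans ?_ h2
      calc L.card * rho = ∑ p ∈ L, rho := by rw [sum_const, smul_eq_mul]
        _ ≤ _ := sum_le_sum hL
    have : (L.card : ℝ) * rho ≤ (A.card : ℝ) * A.card := by exact_mod_cast h3
    rw [sq]
    exact this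
  -- the case of small kappa
  rcases lt_or_ge ((rho : ℝ) * D ^ 2) (8 * (P.card : ℝ) ^ 2) with hk4 | hk4
  · left
    calc (L.card : ℝ) * (rho : ℝ) ^ 3 * D ^ 8
        = (L.card : ℝ) * rho * ((rho : ℝ) * D ^ 2) ^ 2 * (D ^ 2 * D ^ 2) := by ring
      _ ≤ (A.card : ℝ) ^ 2 * (8 * (P.card : ℝ) ^ 2) ^ 2 * ((A.card : ℝ) ^ 2 * (P.card : ℝ) ^ 2) := by gcongr
      _ = 64 * (A.card : ℝ) ^ 4 * (P.card : ℝ) ^ 6 := by ring
      _ ≤ 2 ^ 15 * (A.card : ℝ) ^ 4 * (P.card : ℝ) ^ 6 := by gcongr; norm_num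
  -- main case
  choose! Bf hBsub hBcard using fun (l : ℝ) (hl : l ∈ L) =>
    exists_subset_card_eq (s := A1.filter fun a => a / l ∈ A1) (n := rho) (hL l hl)
  set kap : ℝ := rho * D ^ 2 / (2 * (P.card : ℝ) ^ 2) with hkap
  have hkN : kap * (2 * (P.card : ℝ) ^ 2) = rho * D ^ 2 := by
    rw [hkap]
    field_simp
  have hkap4 : 4 ≤ kap := by
    rw [hkap, le_div_iff₀ (by positivity)]
    linarith
  set Lc := glines A P Bf kap L with hLc
  have hLcne : ∀ l ∈ Lc, l.1 ≠ 0 := by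
    intro l hl
    rw [hLc] at hl
    unfold glines at hl
    rw [mem_biUnion] at hl
    obtain ⟨lam, hlam, hl⟩ := hl
    rw [mem_image] at hl
    obtain ⟨w, _, rfl⟩ := hl
    exact neg_ne_zero.2 (hLpos lam hlam).ne'
  have hkm : kap ≤ A.card := by
    have h2 : kap * (2 * (P.card : ℝ) ^ 2) ≤ A.card * (2 * (P.card : ℝ) ^ 2) := by
      rw [hkN]
      calc (rho : ℝ) * D ^ 2 ≤ A.card * (P.card : ℝ) ^ 2 := by gcongr
        _ ≤ A.card * (2 * (P.card : ℝ) ^ 2) := by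
          refine mul_le_mul_of_nonneg_left ?_ hm.le
          nlinarith [sq_nonneg (P.card : ℝ)]
    exact le_of_mul_le_mul_right h2 (by positivity)
  -- number of lines
  have hLcc : (Lc.card : ℝ) * kap ^ 3 ≤ 512 * (A.card : ℝ) ^ 4 := by
    have h2 := opt A.card Lc.card kap 1 (Nat.cast_nonneg _) one_pos (by linarith) (by linarith) (by
      intro r hr1 hrn
      have h3 := st A.card r hr1 hrn A A le_rfl le_rfl Lc hLcne
      have h4 : (Lc.card : ℝ) * kap ≤ ∑ l ∈ Lc, ((on A A l).card : ℝ) := by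
        rw [← nsmul_eq_mul, ← sum_const]
        exact sum_le_sum fun l hl => glines_rich A P Bf kap L hLpos l hl
      linarith)
    linarith
  -- incidences with the points of P x P
  have hinc : ∀ r : ℕ, 1 ≤ r → r ≤ P.card →
      (L.card : ℝ) * (D ^ 2 / 2) ≤ 2 * r * Lc.card + 4 * (P.card : ℝ) ^ 4 / (r : ℝ) ^ 2 := by
    intro r hr1 hrn
    have h3 := st P.card r hr1 hrn P P le_rfl le_rfl Lc hLcne
    refine le_trans ?_ h3
    have h4 := glines_inc A P Bf kap L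
    have h5 : (∑ lam ∈ L, (((P ×ˢ P).filter fun w => kap ≤ mult A (Bf lam) lam w).card : ℝ)) ≤
        ∑ l ∈ Lc, ((on P P l).card : ℝ) := by exact_mod_cast h4
    refine le_trans ?_ h5
    rw [← nsmul_eq_mul, ← sum_const]
    refine sum_le_sum fun lam hlam => ?_
    refine good_pairs A A1 P (Bf lam) D hD lam rho h1 hdeg ?_ (hBcard lam hlam) hNn kap hkN
    intro a ha
    exact mem_filter.1 (hBsub lam hlam ha)
  -- the number of lines, in terms of rho
  have hLc2 : (Lc.card : ℝ) * ((rho : ℝ) ^ 3 * D ^ 6) ≤ 4096 * (A.card : ℝ) ^ 4 * (P.card : ℝ) ^ 6 := by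
    calc (Lc.card : ℝ) * ((rho : ℝ) ^ 3 * D ^ 6) = (Lc.card : ℝ) * (rho * D ^ 2) ^ 3 := by ring
      _ = ((Lc.card : ℝ) * kap ^ 3) * (8 * (P.card : ℝ) ^ 6) := by
        rw [← hkN]
        ring
      _ ≤ (512 * (A.card : ℝ) ^ 4) * (8 * (P.card : ℝ) ^ 6) := by gcongr
      _ = _ := by ring
  have hLc1 : (0 : ℝ) ≤ Lc.card := Nat.cast_nonneg _
  have hL0 : (0 : ℝ) < L.card := by exact_mod_cast card_pos.2 ⟨l0, hl0⟩
  rcases le_or_gt (16 * (P.card : ℝ) ^ 4) ((L.card : ℝ) * D ^ 2) with hc | hc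
  · left
    have h2 := hinc 1 le_rfl hNn
    have h3 : (L.card : ℝ) * D ^ 2 ≤ 8 * Lc.card := by
      norm_num at h2
      linarith
    calc (L.card : ℝ) * (rho : ℝ) ^ 3 * D ^ 8 = (L.card : ℝ) * D ^ 2 * ((rho : ℝ) ^ 3 * D ^ 6) := by ring
      _ ≤ 8 * Lc.card * ((rho : ℝ) ^ 3 * D ^ 6) := by gcongr
      _ = 8 * (Lc.card * ((rho : ℝ) ^ 3 * D ^ 6)) := by ring
      _ ≤ 8 * (4096 * (A.card : ℝ) ^ 4 * (P.card : ℝ) ^ 6) := by gcongr
      _ = _ := by ring
  · right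
    set x : ℝ := Real.sqrt L.card with hx
    have hx2 : x ^ 2 = L.card := Real.sq_sqrt (Nat.cast_nonneg _)
    have hx0 : 0 < x := Real.sqrt_pos.2 hL0
    rcases lt_or_ge (x * D) (4 * P.card) with hc2 | hc2
    · calc (L.card : ℝ) ^ 3 * (rho : ℝ) ^ 6 * D ^ 18 = (x * D) ^ 6 * (rho : ℝ) ^ 6 * (D ^ 10 * D ^ 2) := by
            rw [← hx2]
            ring
        _ ≤ (4 * (P.card : ℝ)) ^ 6 * (A.card : ℝ) ^ 6 * ((P.card : ℝ) ^ 10 * (A.card : ℝ) ^ 2) := by gcongr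
        _ = 4096 * (A.card : ℝ) ^ 8 * (P.card : ℝ) ^ 16 := by ring
        _ ≤ 2 ^ 36 * (A.card : ℝ) ^ 8 * (P.card : ℝ) ^ 16 := by gcongr; norm_num
    · set y : ℝ := 4 * (P.card : ℝ) ^ 2 / (x * D) with hy
      have hyx : y * (x * D) = 4 * (P.card : ℝ) ^ 2 := by
        rw [hy]
        field_simp
      have hy1 : 1 < y := by
        rw [hy, lt_div_iff₀ (by positivity)]
        have h2 : (x * D) ^ 2 < (4 * (P.card : ℝ) ^ 2) ^ 2 := by
          calc (x * D) ^ 2 = (L.card : ℝ) * D ^ 2 := by rw [← hx2]; ring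
            _ < 16 * (P.card : ℝ) ^ 4 := hc
            _ = (4 * (P.card : ℝ) ^ 2) ^ 2 := by ring
        have := lt_of_pow_lt_pow_left₀ 2 (by positivity) h2
        linarith
      have hyN : y ≤ P.card := by
        rw [hy, div_le_iff₀ (by positivity)]
        nlinarith
      set r : ℕ := ⌈y⌉₊ with hr
      have hry : y ≤ r := Nat.le_ceil y
      have hr2 : (r : ℝ) < y + 1 := Nat.ceil_lt_add_one (by linarith)
      have hr1 : 1 ≤ r := by
        have : (1 : ℝ) < r := by linarith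
        exact_mod_cast this.le
      have hrN : r ≤ P.card := Nat.ceil_le.2 hyN
      have h2 := hinc r hr1 hrN
      have hrR : (0 : ℝ) < r := by linarith
      -- second term
      have h3 : 4 * (P.card : ℝ) ^ 4 / (r : ℝ) ^ 2 ≤ (L.card : ℝ) * D ^ 2 / 4 := by
        rw [div_le_iff₀ (by positivity)]
        have h4 : 4 * (P.card : ℝ) ^ 2 ≤ r * (x * D) := by
          rw [← hyx]
          gcongr
        have h5 : (4 * (P.card : ℝ) ^ 2) ^ 2 ≤ (r * (x * D)) ^ 2 := by gcongr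
        have h6 : (r * (x * D)) ^ 2 = (L.card : ℝ) * D ^ 2 * (r : ℝ) ^ 2 := by
          rw [← hx2]
          ring
        rw [h6] at h5
        linarith
      have h4 : (L.card : ℝ) * D ^ 2 ≤ 8 * r * Lc.card := by linarith
      have h5 : (r : ℝ) ≤ 2 * y := by linarith
      have h6 : (L.card : ℝ) * D ^ 2 * (x * D) ≤ 64 * (P.card : ℝ) ^ 2 * Lc.card := by
        calc (L.card : ℝ) * D ^ 2 * (x * D) ≤ 8 * r * Lc.card * (x * D) := by gcongr
          _ ≤ 8 * (2 * y) * Lc.card * (x * D) := by gcongr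
          _ = 16 * (y * (x * D)) * Lc.card := by ring
          _ = 64 * (P.card : ℝ) ^ 2 * Lc.card := by rw [hyx]; ring
      have h7 : x ^ 3 * D ^ 3 * ((rho : ℝ) ^ 3 * D ^ 6) ≤ 2 ^ 18 * (A.card : ℝ) ^ 4 * (P.card : ℝ) ^ 8 := by
        calc x ^ 3 * D ^ 3 * ((rho : ℝ) ^ 3 * D ^ 6)
            = (L.card : ℝ) * D ^ 2 * (x * D) * ((rho : ℝ) ^ 3 * D ^ 6) := by
              rw [← hx2]
              ring
          _ ≤ 64 * (P.card : ℝ) ^ 2 * Lc.card * ((rho : ℝ) ^ 3 * D ^ 6) := by gcongr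
          _ = 64 * (P.card : ℝ) ^ 2 * (Lc.card * ((rho : ℝ) ^ 3 * D ^ 6)) := by ring
          _ ≤ 64 * (P.card : ℝ) ^ 2 * (4096 * (A.card : ℝ) ^ 4 * (P.card : ℝ) ^ 6) := by gcongr
          _ = _ := by ring
      calc (L.card : ℝ) ^ 3 * (rho : ℝ) ^ 6 * D ^ 18 = (x ^ 3 * D ^ 3 * ((rho : ℝ) ^ 3 * D ^ 6)) ^ 2 := by
            rw [← hx2]
            ring
        _ ≤ (2 ^ 18 * (A.card : ℝ) ^ 4 * (P.card : ℝ) ^ 8) ^ 2 := by gcongr
        _ = _ := by ring

end SdG
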